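import Mathlib

set_option autoImplicit false

namespace Pool.Agent.H.MP_725863_an

open scoped BigOperators

/-- the real Banach space ℓ¹ -/
abbrev L1 : Type := lp (fun _ : ℕ => ℝ) 1

lemma summable_abs (x : L1) : Summable fun n => |x n| := by
  have h := (lp.memℓp x).summable (by norm_num : (0 : ℝ) < (1 : ENNReal).toReal)
  simpa using h

lemma summable_coe (x : L1) : Summable fun n => x n :=
  (summable_abs x).of_abs

lemma norm_eq (x : L1) : ‖x‖ = ∑' n, |x n| := by
  have h := lp.norm_eq_tsum_rpow (E := fun _ : ℕ => ℝ) (p := 1) (by norm_num) x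
  simpa using h

/-- positivity of a vector -/
def Pos (x : L1) : Prop := ∀ n, 0 ≤ x n

/-- the sum functional -/
noncomputable def one : L1 →ₗ[ℝ] ℝ where
  toFun x := ∑' n, x n
  map_add' x y := by
    simp only [lp.coeFn_add, Pi.add_apply]
    exact (summable_coe x).tsum_add (summable_coe y)
  map_smul' c x := by
    simp only [lp.coeFn_smul, Pi.smul_apply, smul_eq_mul, RingHom.id_apply]
    exact tsum_mul_left

lemma one_apply (x : L1) : one x = ∑' n, x n := rfl

lemma one_eq_norm {x : L1} (hx : Pos x) : one x = ‖x‖ := by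
  rw [norm_eq, one_apply]
  exact tsum_congr fun n => (abs_of_nonneg (hx n)).symm

lemma one_nonneg {x : L1} (hx : Pos x) : 0 ≤ one x := by
  rw [one_eq_norm hx]; exact norm_nonneg _

lemma abs_one_le (x : L1) : |one x| ≤ ‖x‖ := by
  rw [norm_eq, one_apply]
  have := norm_tsum_le_tsum_norm (f := fun n => x n) (by simpa using summable_abs x)
  simpa using this

/-- indicator projection -/
noncomputable def proj (S : Set ℕ) : L1 →ₗ[ℝ] L1 where
  toFun x := ⟨S.indicator x, by
    apply memℓp_gen
    have h : Summable fun n => |x n| := summable_abs x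
    refine Summable.of_nonneg_of_le (fun n => by positivity) (fun n => ?_) h
    by_cases hn : n ∈ S
    · simp [hn]
    · simp [hn]⟩
  map_add' x y := by
    ext n
    change S.indicator (⇑x + ⇑y) n = S.indicator x n + S.indicator y n
    rw [Set.indicator_add']
    rfl
  map_smul' c x := by
    ext n
    exact Set.indicator_const_smul_apply S c (fun i => x i) n

lemma proj_apply (S : Set ℕ) (x : L1) (n : ℕ) : (proj S x) n = S.indicator x n := rfl

lemma proj_apply_mem {S : Set ℕ} (x : L1) {n : ℕ} (h : n ∈ S) : (proj S x) n = x n := by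
  rw [proj_apply]; simp [h]

lemma proj_apply_notMem {S : Set ℕ} (x : L1) {n : ℕ} (h : n ∉ S) : (proj S x) n = 0 := by
  rw [proj_apply]; simp [h]

lemma proj_pos {S : Set ℕ} {x : L1} (hx : Pos x) : Pos (proj S x) := by
  intro n
  by_cases h : n ∈ S
  · rw [proj_apply_mem x h]; exact hx n
  · rw [proj_apply_notMem x h]

lemma proj_add_compl (S : Set ℕ) (x : L1) : proj S x + proj Sᶜ x = x := by
  ext n
  rw [lp.coeFn_add, Pi.add_apply]
  by_cases h : n ∈ S
  · rw [proj_apply_mem x h, proj_apply_notMem x (by simpa using h)]; simp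
  · rw [proj_apply_notMem x h, proj_apply_mem x (by simpa using h)]; simp

lemma proj_proj (S : Set ℕ) (x : L1) : proj S (proj S x) = proj S x := by
  ext n
  by_cases h : n ∈ S
  · rw [proj_apply_mem _ h]
  · rw [proj_apply_notMem _ h, proj_apply_notMem _ h]

lemma proj_compl_proj (S : Set ℕ) (x : L1) : proj Sᶜ (proj S x) = 0 := by
  ext n
  by_cases h : n ∈ S
  · rw [proj_apply_notMem _ (by simpa using h)]; simp
  · rw [proj_apply_mem _ (by simpa using h), proj_apply_notMem _ h]; simp

lemma proj_proj_compl (S : Set ℕ) (x : L1) : proj S (proj Sᶜ x) = 0 := by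
  ext n
  by_cases h : n ∈ S
  · rw [proj_apply_mem _ h, proj_apply_notMem _ (by simpa using h)]; simp
  · rw [proj_apply_notMem _ h]; simp

lemma pos_zero : Pos 0 := fun n => by simp

lemma pos_add {x y : L1} (hx : Pos x) (hy : Pos y) : Pos (x + y) := fun n => by
  rw [lp.coeFn_add, Pi.add_apply]; exact add_nonneg (hx n) (hy n)

lemma pos_smul {x : L1} {c : ℝ} (hc : 0 ≤ c) (hx : Pos x) : Pos (c • x) := fun n => by
  rw [lp.coeFn_smul, Pi.smul_apply, smul_eq_mul]; exact mul_nonneg hc (hx n)

lemma pos_sub {x y : L1} (h : ∀ n, y n ≤ x n) : Pos (x - y) := fun n => by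
  rw [lp.coeFn_sub, Pi.sub_apply]; exact sub_nonneg.2 (h n)

lemma norm_add_of_pos {x y : L1} (hx : Pos x) (hy : Pos y) : ‖x + y‖ = ‖x‖ + ‖y‖ := by
  rw [← one_eq_norm hx, ← one_eq_norm hy, ← one_eq_norm (pos_add hx hy), map_add]

/-- the basis vectors -/
noncomputable def e (j : ℕ) : L1 := lp.single 1 j (1 : ℝ)

lemma e_apply_self (j : ℕ) : e j j = 1 := by
  simp [e]

lemma e_apply_ne {j n : ℕ} (h : n ≠ j) : e j n = 0 := by
  simp [e, h]

lemma e_pos (j : ℕ) : Pos (e j) := by
  intro n
  by_cases h : n = j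
  · subst h; rw [e_apply_self]; norm_num
  · rw [e_apply_ne h]

lemma norm_e (j : ℕ) : ‖e j‖ = 1 := by
  unfold e
  rw [lp.norm_single (by norm_num)]
  norm_num

lemma hasSum_e (x : L1) : HasSum (fun j => x j • e j) x := by
  have h := lp.hasSum_single (E := fun _ : ℕ => ℝ) (p := 1) (by norm_num) x
  have h2 : (fun j => x j • e j) = fun j => lp.single 1 j (x j) := by
    funext j
    unfold e
    rw [← lp.single_smul]
    simp
  rw [h2]
  exact h

/-- the difference estimate -/
lemma norm_sub_le_of_le {a b y : L1} (hab : one a = one b) (hy : Pos y)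
    (h : ∀ n, a n - b n ≤ y n) : ‖a - b‖ ≤ 2 * one y := by
  have key : ∀ n, |(a - b) n| ≤ 2 * y n - (a n - b n) := by
    intro n
    rw [lp.coeFn_sub, Pi.sub_apply]
    have h1 := h n
    have h2 := hy n
    rcases le_total 0 (a n - b n) with h0 | h0
    · rw [abs_of_nonneg h0]; linarith
    · rw [abs_of_nonpos h0]; linarith
  rw [norm_eq]
  have hs : Summable fun n => 2 * y n - (a n - b n) :=
    ((summable_coe y).mul_left 2).sub ((summable_coe a).sub (summable_coe b))
  calc ∑' n, |(a - b) n| ≤ ∑' n, (2 * y n - (a n - b n)) :=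
        (summable_abs (a - b)).tsum_le_tsum key hs
    _ = 2 * one y - (one a - one b) := by
        rw [Summable.tsum_sub ((summable_coe y).mul_left 2) ((summable_coe a).sub (summable_coe b)),
          Summable.tsum_sub (summable_coe a) (summable_coe b), tsum_mul_left]
        rfl
    _ = 2 * one y := by rw [hab]; ring

/-- operator bound through basis vectors -/
lemma norm_le_of_basis (A : L1 →L[ℝ] L1) {c : ℝ} (h : ∀ j, ‖A (e j)‖ ≤ c) (x : L1) :
    ‖A x‖ ≤ c * ‖x‖ := by
  have h1 : HasSum (fun j => x j • A (e j)) (A x) := by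
    have := (hasSum_e x).mapL A
    simpa using this
  have h2 : Summable fun j => ‖x j • A (e j)‖ := by
    refine Summable.of_nonneg_of_le (fun n => norm_nonneg _) (fun n => ?_)
      ((summable_abs x).mul_right c)
    rw [norm_smul, Real.norm_eq_abs]
    exact mul_le_mul_of_nonneg_left (h n) (abs_nonneg _)
  rw [← h1.tsum_eq]
  calc ‖∑' j, x j • A (e j)‖ ≤ ∑' j, ‖x j • A (e j)‖ := norm_tsum_le_tsum_norm h2
    _ ≤ ∑' j, |x j| * c := by
        refine h2.tsum_le_tsum (fun n => ?_) ((summable_abs x).mul_right c)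
        rw [norm_smul, Real.norm_eq_abs]
        exact mul_le_mul_of_nonneg_left (h n) (abs_nonneg _)
    _ = c * ‖x‖ := by rw [tsum_mul_right, norm_eq]; ring

/-- Markov operators -/
structure Markov (P : L1 →L[ℝ] L1) : Prop where
  pos : ∀ x, Pos x → Pos (P x)
  norm : ∀ x, Pos x → ‖P x‖ = ‖x‖

/-- the sum functional as a continuous functional -/
noncomputable def oneC : L1 →L[ℝ] ℝ :=
  LinearMap.mkContinuous one 1 (fun x => by rw [one_mul]; exact abs_one_le x)

lemma oneC_apply (x : L1) : oneC x = one x := rfl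

lemma Markov.one_map {P : L1 →L[ℝ] L1} (hP : Markov P) (x : L1) : one (P x) = one x := by
  have h1 : HasSum (fun j => x j • one (P (e j))) (one (P x)) := by
    have := (hasSum_e x).mapL (oneC.comp P)
    simpa [oneC_apply] using this
  have h2 : HasSum (fun j => x j • one (e j)) (one x) := by
    have := (hasSum_e x).mapL oneC
    simpa [oneC_apply] using this
  have h3 : (fun j => x j • one (P (e j))) = fun j => x j • one (e j) := by
    funext j
    rw [one_eq_norm (hP.pos _ (e_pos j)), hP.norm _ (e_pos j), one_eq_norm (e_pos j)]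
  rw [h3] at h1
  exact h1.unique h2

lemma Markov.norm_le {P : L1 →L[ℝ] L1} (hP : Markov P) (x : L1) : ‖P x‖ ≤ ‖x‖ := by
  have := norm_le_of_basis P (c := 1) (fun j => by rw [hP.norm _ (e_pos j), norm_e]) x
  linarith

end Pool.Agent.H.MP_725863_an
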