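import Mathlib

/-! A contraction semigroup in a Banach algebra which is norm continuous at `0` is `exp (t A)`. -/

set_option autoImplicit false

namespace Pool.Agent.H.MP_725863_an

open MeasureTheory Filter Topology Set

section
variable {R : Type*} [NormedRing R]

theorem sg_continuous {T : NNReal → R} (h0 : T 0 = 1)
    (hadd : ∀ s t, T (s + t) = T s * T t) (hb : ∀ t, ‖T t‖ ≤ 1)
    (hlim : Tendsto T (𝓝 0) (𝓝 1)) : Continuous T := by
  have key : ∀ s t, s ≤ t → ‖T t - T s‖ ≤ ‖T (t - s) - 1‖ := by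
    intro s t hst
    have h1 : T t = T s * T (t - s) := by
      rw [← hadd s (t - s), add_tsub_cancel_of_le hst]
    rw [h1, show T s * T (t - s) - T s = T s * (T (t - s) - 1) by rw [mul_sub, mul_one]]
    refine (norm_mul_le _ _).trans ?_
    have := hb s
    nlinarith [norm_nonneg (T (t - s) - 1)]
  have key2 : ∀ s t, ‖T t - T s‖ ≤ ‖T (nndist t s) - 1‖ := by
    intro s t
    rcases le_total s t with hst | hst
    · rw [NNReal.nndist_eq, tsub_eq_zero_of_le hst, max_eq_left zero_le]
      exact key s t hst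
    · rw [NNReal.nndist_eq, tsub_eq_zero_of_le hst, max_eq_right zero_le, norm_sub_rev]
      exact key t s hst
  rw [continuous_iff_continuousAt]
  intro s
  rw [ContinuousAt, tendsto_iff_norm_sub_tendsto_zero]
  refine squeeze_zero (fun t => norm_nonneg _) (fun t => key2 s t) ?_
  rw [← tendsto_iff_norm_sub_tendsto_zero]
  refine hlim.comp ?_
  have h1 : Continuous fun t : NNReal => nndist t s := by fun_prop
  have h2 := h1.tendsto s
  rwa [nndist_self] at h2

end

section
variable {R : Type*} [NormedRing R] [NormOneClass R] [NormedAlgebra ℝ R] [CompleteSpace R]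

/-- If `‖T t - 1‖ ≤ 1/2` for `t ≤ h` then the generator exists, is bounded by `1/h`, and
`T t = exp (t A)`. -/
theorem sg_exp {T : NNReal → R} (h0 : T 0 = 1)
    (hadd : ∀ s t, T (s + t) = T s * T t) (hc : Continuous T)
    {h : NNReal} (hh : 0 < h) (hsmall : ∀ t ≤ h, ‖T t - 1‖ ≤ 1 / 2) :
    ∃ A : R, ‖A‖ ≤ (h : ℝ)⁻¹ ∧
      Tendsto (fun t : NNReal => (t : ℝ)⁻¹ • (T t - 1)) (𝓝[≠] 0) (𝓝 A) ∧
      ∀ t : NNReal, T t = NormedSpace.exp ((t : ℝ) • A) := by
  set f : ℝ → R := fun t => T t.toNNReal with hf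
  have hfc : Continuous f := hc.comp continuous_real_toNNReal
  have hf0 : f 0 = 1 := by simp [hf, h0]
  have hfadd : ∀ s t, 0 ≤ s → 0 ≤ t → f (s + t) = f s * f t := by
    intro s t hs ht
    simp only [hf]
    rw [Real.toNNReal_add hs ht, hadd]
  have hhr : (0 : ℝ) < h := hh
  have hii : ∀ a b : ℝ, IntervalIntegrable f volume a b := fun a b => hfc.intervalIntegrable a b
  set S : ℝ → R := fun t => ∫ s in (0 : ℝ)..t, f s with hS
  -- the basic identity
  have hid : ∀ t u : ℝ, 0 ≤ t → 0 ≤ u → (f t - 1) * S u = S (t + u) - S t - S u := by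
    intro t u ht hu
    have h1 : f t * S u = ∫ s in (0 : ℝ)..u, f t * f s :=
      ((ContinuousLinearMap.mul ℝ R (f t)).intervalIntegral_comp_comm (hii 0 u)).symm
    have h2 : (∫ s in (0 : ℝ)..u, f t * f s) = ∫ s in (0 : ℝ)..u, f (t + s) := by
      apply intervalIntegral.integral_congr
      intro s hs
      rw [uIcc_of_le hu] at hs
      exact (hfadd t s ht hs.1).symm
    have h3 : (∫ s in (0 : ℝ)..u, f (t + s)) = ∫ s in t..(t + u), f s := by
      rw [intervalIntegral.integral_comp_add_left (fun s => f s) t, add_zero]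
    have h4 : (∫ s in t..(t + u), f s) = S (t + u) - S t := by
      rw [hS]
      simp only
      rw [← intervalIntegral.integral_add_adjacent_intervals (hii 0 t) (hii t (t + u))]
      abel
    rw [sub_mul, one_mul, h1, h2, h3, h4]
  have hid2 : ∀ t u : ℝ, 0 ≤ t → 0 ≤ u → (f t - 1) * S u = (f u - 1) * S t := by
    intro t u ht hu
    rw [hid t u ht hu, hid u t hu ht, add_comm u t]
    abel
  -- `S h / h` is a unit
  set x : R := 1 - (h : ℝ)⁻¹ • S h with hx
  have hxn : ‖x‖ ≤ 1 / 2 := by
    have h1 : S h - (h : ℝ) • (1 : R) = ∫ s in (0 : ℝ)..h, (f s - 1) := by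
      rw [intervalIntegral.integral_sub (hii 0 h) intervalIntegrable_const,
        intervalIntegral.integral_const, sub_zero]
    have h2 : ‖S h - (h : ℝ) • (1 : R)‖ ≤ 1 / 2 * |(h : ℝ) - 0| := by
      rw [h1]
      apply intervalIntegral.norm_integral_le_of_norm_le_const
      intro s hs
      rw [uIoc_of_le hhr.le] at hs
      apply hsmall
      exact Real.toNNReal_le_iff_le_coe.2 hs.2
    rw [sub_zero, abs_of_pos hhr] at h2
    have h3 : x = (h : ℝ)⁻¹ • ((h : ℝ) • (1 : R) - S h) := by
      rw [hx, smul_sub, smul_smul, inv_mul_cancel₀ hhr.ne', one_smul]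
    rw [h3, norm_smul, norm_inv, Real.norm_of_nonneg hhr.le, norm_sub_rev, inv_mul_le_iff₀ hhr]
    linarith
  have hx1 : ‖x‖ < 1 := by linarith
  set y : R := ∑' n : ℕ, x ^ n with hy
  have hyn : ‖y‖ ≤ 2 := by
    have h1 := tsum_geometric_le_of_norm_lt_one x hx1
    rw [norm_one, sub_self, zero_add] at h1
    refine h1.trans ?_
    rw [inv_le_comm₀ (by linarith) (by norm_num)]
    linarith
  have hSy : (h : ℝ)⁻¹ • S h * y = 1 := by
    have h1 := mul_neg_geom_series x hx1
    rwa [hx, sub_sub_cancel] at h1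
  set A : R := (h : ℝ)⁻¹ • ((f h - 1) * y) with hA
  have hfh : ‖f h - 1‖ ≤ 1 / 2 := by
    apply hsmall
    rw [Real.toNNReal_coe]
  have hAn : ‖A‖ ≤ (h : ℝ)⁻¹ := by
    rw [hA, norm_smul, norm_inv, Real.norm_of_nonneg hhr.le]
    have h1 : ‖(f h - 1) * y‖ ≤ 1 := by
      refine (norm_mul_le _ _).trans ?_
      calc ‖f h - 1‖ * ‖y‖ ≤ 1 / 2 * 2 :=
            mul_le_mul hfh hyn (norm_nonneg _) (by norm_num)
        _ = 1 := by norm_num
    calc (h : ℝ)⁻¹ * ‖(f h - 1) * y‖ ≤ (h : ℝ)⁻¹ * 1 :=
          mul_le_mul_of_nonneg_left h1 (by positivity)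
      _ = (h : ℝ)⁻¹ := mul_one _
  have hft : ∀ t : ℝ, 0 ≤ t → f t - 1 = (h : ℝ)⁻¹ • ((f h - 1) * S t * y) := by
    intro t ht
    calc f t - 1 = (f t - 1) * ((h : ℝ)⁻¹ • S h * y) := by rw [hSy, mul_one]
      _ = (h : ℝ)⁻¹ • ((f t - 1) * S h * y) := by
          rw [smul_mul_assoc, mul_smul_comm, mul_assoc]
      _ = _ := by rw [hid2 t h ht hhr.le]
  -- the right derivative at `0`
  have hS0 : HasDerivAt S 1 0 := by
    have h1 := intervalIntegral.integral_hasDerivAt_right (hii 0 0)
      (hfc.stronglyMeasurableAtFilter volume (𝓝 0)) hfc.continuousAt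
    rwa [hf0] at h1
  have hSz : S 0 = 0 := intervalIntegral.integral_same
  have hd0 : HasDerivWithinAt f A (Ici 0) 0 := by
    have h1 : HasDerivAt (fun t => 1 + (h : ℝ)⁻¹ • ((f h - 1) * S t * y)) A 0 := by
      have h2 := (((hS0.const_mul (f h - 1)).mul_const y).const_smul (h : ℝ)⁻¹).const_add (1 : R)
      rwa [mul_one] at h2
    refine h1.hasDerivWithinAt.congr ?_ ?_
    · intro t ht
      rw [← hft t ht]
      abel
    · rw [← hft 0 le_rfl]
      abel
  have hdt : ∀ t : ℝ, 0 ≤ t → HasDerivWithinAt f (f t * A) (Ici t) t := by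
    intro t ht
    have h1 : HasDerivWithinAt (fun s => f t * f (s - t)) (f t * A) (Ici t) t := by
      have h2 : HasDerivWithinAt (fun s : ℝ => s - t) 1 (Ici t) t :=
        (hasDerivWithinAt_id t (Ici t)).sub_const t
      have h3 : HasDerivWithinAt (fun s => f (s - t)) ((1 : ℝ) • A) (Ici t) t := by
        apply HasDerivWithinAt.scomp_of_eq t hd0 h2 _ (by simp)
        intro s hs
        have hs' : t ≤ s := hs
        exact sub_nonneg.2 hs'
      rw [one_smul] at h3
      exact h3.const_mul (f t)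
    refine h1.congr ?_ ?_
    · intro s hs
      rw [← hfadd t (s - t) ht (sub_nonneg.2 hs), add_sub_cancel]
    · rw [sub_self, hf0, mul_one]
  have hexp : ∀ t : ℝ, 0 ≤ t → f t = NormedSpace.exp (t • A) := by
    intro t ht
    set u : ℝ → R := fun s => f s * NormedSpace.exp (s • (-A)) with hu
    have hE : ∀ s : ℝ, HasDerivAt (fun s : ℝ => NormedSpace.exp (s • (-A)))
        ((-A) * NormedSpace.exp (s • (-A))) s := fun s => hasDerivAt_exp_smul_const' (-A) s
    have huc : ContinuousOn u (Icc 0 t) := by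
      have h1 : Continuous fun s : ℝ => NormedSpace.exp (s • (-A)) :=
        continuous_iff_continuousAt.2 fun s => (hE s).continuousAt
      exact (hfc.mul h1).continuousOn
    have hud : ∀ s ∈ Ico 0 t, HasDerivWithinAt u 0 (Ici s) s := by
      intro s hs
      have h1 := (hdt s hs.1).mul (hE s).hasDerivWithinAt
      have h2 : f s * A * NormedSpace.exp (s • (-A)) +
          f s * ((-A) * NormedSpace.exp (s • (-A))) = 0 := by
        rw [neg_mul, mul_neg, mul_assoc, add_neg_cancel]
      rwa [h2] at h1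
    have h1 := constant_of_has_deriv_right_zero huc hud t ⟨ht, le_rfl⟩
    have h2 : u 0 = 1 := by
      simp only [hu]
      rw [zero_smul, NormedSpace.exp_zero, hf0, mul_one]
    have h3 : NormedSpace.exp (t • (-A)) * NormedSpace.exp (t • A) = 1 := by
      letI : NormedAlgebra ℚ R := NormedAlgebra.restrictScalars ℚ ℝ R
      rw [← NormedSpace.exp_add_of_commute, ← smul_add, neg_add_cancel, smul_zero,
        NormedSpace.exp_zero]
      exact ((Commute.refl A).neg_left.smul_left t).smul_right t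
    calc f t = f t * (NormedSpace.exp (t • (-A)) * NormedSpace.exp (t • A)) := by
          rw [h3, mul_one]
      _ = u t * NormedSpace.exp (t • A) := by rw [← mul_assoc]
      _ = NormedSpace.exp (t • A) := by rw [h1, h2, one_mul]
  refine ⟨A, hAn, ?_, fun t => ?_⟩
  · have h1 : Tendsto (fun t : ℝ => t⁻¹ • (f t - 1)) (𝓝[Ici 0 \ {0}] 0) (𝓝 A) := by
      have h2 := hasDerivWithinAt_iff_tendsto_slope.1 hd0
      refine h2.congr fun t => ?_
      rw [slope_def_module, sub_zero, hf0]
    have h3 : Tendsto (fun t : NNReal => (t : ℝ)) (𝓝[≠] 0) (𝓝[Ici 0 \ {0}] 0) := by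
      apply tendsto_nhdsWithin_of_tendsto_nhds_of_eventually_within
      · have h4 := NNReal.continuous_coe.tendsto 0
        exact (by simpa using h4 : Tendsto (fun t : NNReal => (t : ℝ)) (𝓝 0) (𝓝 0)).mono_left
          nhdsWithin_le_nhds
      · filter_upwards [self_mem_nhdsWithin] with t ht
        exact ⟨t.2, fun h => ht (NNReal.coe_eq_zero.1 h)⟩
    refine (h1.comp h3).congr fun t => ?_
    simp [hf]
  · have h1 := hexp t t.2
    simpa [hf] using h1

end

end Pool.Agent.H.MP_725863_an
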