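import Pool.Agent.H.MP_725863_an.Integ

set_option autoImplicit false

namespace Pool.Agent.H.MP_725863_an

open scoped BigOperators
open MeasureTheory Filter Topology

lemma tm_tendsto : Tendsto tm atTop (𝓝 0) := by
  unfold tm
  apply NNReal.tendsto_pow_atTop_nhds_zero_of_lt_one
  rw [← NNReal.coe_lt_coe]
  push_cast
  norm_num

lemma tm_anti {m n : ℕ} (h : m ≤ n) : tm n ≤ tm m := by
  unfold tm
  apply pow_le_pow_of_le_one (by positivity) _ h
  rw [← NNReal.coe_le_coe]
  push_cast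
  norm_num

section
variable {T : NNReal → (L1 →L[ℝ] L1)}

lemma eventually_slow (hT : SG T) (j : ℕ) :
    ∃ m0, ∀ m, m0 ≤ m → 3 / 4 ≤ (T (tm m) (e j)) j := by
  have h1 : Tendsto (fun m => T (tm m) (e j)) atTop (𝓝 (T 0 (e j))) :=
    ((hT.cont (e j)).tendsto 0).comp tm_tendsto
  have h2 : T 0 (e j) = e j := by rw [hT.zero]; rfl
  rw [h2] at h1
  have h3 := (Metric.tendsto_atTop.1 h1) (1 / 4) (by norm_num)
  obtain ⟨m0, hm0⟩ := h3
  refine ⟨m0, fun m hm => ?_⟩
  have h4 := hm0 m hm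
  rw [dist_eq_norm] at h4
  have h5 := abs_coord_le (T (tm m) (e j) - e j) j
  rw [lp.coeFn_sub, Pi.sub_apply, e_apply_self] at h5
  have h6 := neg_abs_le ((T (tm m) (e j)) j - 1)
  linarith

lemma compl_Sl (hT : SG T) (m : ℕ) : (Sl T m)ᶜ = ⋃ k, Lv T (m + 1 + k) := by
  ext j
  constructor
  · intro hj
    have hj' : ¬ ∀ m', m < m' → 3 / 4 ≤ (T (tm m') (e j)) j := hj
    push Not at hj'
    obtain ⟨m0, hm0⟩ := eventually_slow hT j
    -- the largest bad index
    classical
    obtain ⟨m1, hm1, hm1'⟩ := hj'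
    have hb : ∀ m', (m < m' ∧ (T (tm m') (e j)) j < 3 / 4) → m' ≤ m0 := by
      intro m' h
      by_contra hcon
      push Not at hcon
      have := hm0 m' hcon.le
      linarith [h.2]
    have hex : ∃ m', (m < m' ∧ (T (tm m') (e j)) j < 3 / 4) := ⟨m1, hm1, hm1'⟩
    set M := Nat.findGreatest (fun m' => m < m' ∧ (T (tm m') (e j)) j < 3 / 4) m0 with hM
    have hMs : m < M ∧ (T (tm M) (e j)) j < 3 / 4 :=
      Nat.findGreatest_spec (P := fun m' => m < m' ∧ (T (tm m') (e j)) j < 3 / 4)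
        (hb m1 ⟨hm1, hm1'⟩) ⟨hm1, hm1'⟩
    refine Set.mem_iUnion.2 ⟨M - (m + 1), ?_⟩
    have hMe : m + 1 + (M - (m + 1)) = M := by omega
    rw [hMe]
    refine ⟨hMs.2, ?_⟩
    intro m' hm'
    by_contra hcon
    push Not at hcon
    have h7 : m' ≤ M := Nat.le_findGreatest (hb m' ⟨by omega, hcon⟩) ⟨by omega, hcon⟩
    omega
  · intro hj
    obtain ⟨k, hk⟩ := Set.mem_iUnion.1 hj
    intro hcon
    have h1 := hcon (m + 1 + k) (by omega)
    have h2 : (T (tm (m + 1 + k)) (e j)) j < 3 / 4 := hk.1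
    linarith

lemma Lv_disjoint {m m' : ℕ} (h : m < m') : Disjoint (Lv T m) (Lv T m') := by
  rw [Set.disjoint_left]
  intro j hj hj'
  have h1 := hj.2 m' h
  have h2 : (T (tm m') (e j)) j < 3 / 4 := hj'.1
  linarith

lemma Lv_pairwise (m : ℕ) :
    Pairwise (Function.onFun Disjoint (fun k => Lv T (m + 1 + k))) := by
  intro k l hkl
  rcases lt_or_gt_of_ne hkl with h | h
  · exact Lv_disjoint (by omega)
  · exact (Lv_disjoint (by omega)).symm

/-- the fast levels are empty -/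
theorem levels_bounded (hT : SG T) {c : ℝ} (hc : 0 < c)
    (hbelow : ∀ t : NNReal, t ≤ 1 → ∀ x, c * ‖x‖ ≤ ‖T t x‖) :
    ∃ m0, ∀ m, m0 ≤ m → Lv T m = ∅ := by
  obtain ⟨K0, hK0⟩ := exists_nat_gt (256 / (3 * c))
  set K := K0 + 1 with hK
  have hK1 : 1 ≤ K := by omega
  have hKr : 256 / (3 * c) ≤ (K : ℝ) := by
    rw [hK]; push_cast; linarith
  have hK2 : 8 / (3 / 4 * (K : ℝ)) ≤ c / 8 := by
    have hKpos : (0 : ℝ) < K := by exact_mod_cast hK1
    rw [div_le_iff₀ (by positivity)] at hKr ⊢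
    linarith
  set C : ℝ := c / 8 / 2 ^ (K ^ 2 + 1) with hC
  have hC0 : 0 < C := by positivity
  obtain ⟨b, hb⟩ := exists_pow_lt_of_lt_one (show 0 < C / 2 by positivity)
    (show (1 / 2 : ℝ) < 1 by norm_num)
  -- choose m0 so that small
  have hlim : Tendsto (fun m => ((tm (m + 1) : NNReal) : ℝ)) atTop (𝓝 0) := by
    have h1 := (NNReal.continuous_coe.tendsto 0).comp (tm_tendsto.comp (tendsto_add_atTop_nat 1))
    rw [NNReal.coe_zero] at h1
    exact h1
  have hsmall := (Metric.tendsto_atTop.1 hlim) (min (1 / (2 * (b + 1))) (C ^ 2 / 4)) (by positivity)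
  obtain ⟨m0, hm0⟩ := hsmall
  refine ⟨m0, fun m hm => ?_⟩
  by_contra hne
  obtain ⟨j, hj⟩ := Set.nonempty_iff_ne_empty.2 hne
  have hτ := hm0 m hm
  set τ : ℝ := ((tm (m + 1) : NNReal) : ℝ) with hτd
  have hτ0 : 0 ≤ τ := NNReal.coe_nonneg _
  rw [Real.dist_eq, sub_zero, abs_of_nonneg hτ0] at hτ
  have hτ1 : τ < 1 / (2 * (b + 1)) := lt_of_lt_of_le hτ (min_le_left _ _)
  have hτ2 : τ < C ^ 2 / 4 := lt_of_lt_of_le hτ (min_le_right _ _)
  have hbτ : (b : ℝ) * τ ≤ 1 / 2 := by
    rw [lt_div_iff₀ (by positivity)] at hτ1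
    nlinarith
  -- lower bound
  have hlow := lowInt hT (C := C) (m := m) (j := j) (b := b) (by linarith)
    (fun r hr => lower_L hT hbelow hc hK1 hK2 hj hr)
  have hlow2 : C / 4 ≤ ∫ t in (0 : ℝ)..1, w T (Sl T m)ᶜ (e j) t := by
    refine le_trans ?_ hlow
    have h1 : C / 2 ≤ C - (1 / 2) ^ b := by linarith
    have h2 : (1 / 2 : ℝ) ≤ 1 - b * τ := by linarith
    nlinarith
  -- upper bound
  have hocc : ∀ m : ℕ, C * ∫ t in (0 : ℝ)..1, w T (Lv T m) (e j) t ≤
      ((tm (m + 1) : NNReal) : ℝ) := by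
    intro m
    have h1 := occInt hT (C := C) (m := m) (fun i hi => by
      have h2 := lower_L hT hbelow hc hK1 hK2 hi (n := 2 ^ (m + 1)) (r := 0) (by
        rw [two_pow_mul_tm, add_zero])
      have h3 : T 0 (e i) = e i := by rw [hT.zero]; rfl
      rwa [h3] at h2) (e_pos j)
    rwa [one_eq_norm (e_pos j), norm_e, mul_one] at h1
  have hpt : ∀ t : ℝ, HasSum (fun k => w T (Lv T (m + 1 + k)) (e j) t)
      (w T (Sl T m)ᶜ (e j) t) := by
    intro t
    have h1 := hasSum_proj_iUnion (Lv_pairwise (T := T) m)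
      ((hT.markov t.toNNReal).pos _ (e_pos j))
    rw [← compl_Sl hT m] at h1
    exact h1
  have hgeo : HasSum (fun k : ℕ => ((tm (m + 1 + k + 1) : NNReal) : ℝ) / C) (τ / C) := by
    have h1 := (hasSum_geometric_two).mul_left ((1 / 2 : ℝ) ^ (m + 2) / C)
    have h2 : (fun k : ℕ => ((tm (m + 1 + k + 1) : NNReal) : ℝ) / C) =
        fun k : ℕ => (1 / 2 : ℝ) ^ (m + 2) / C * (1 / 2) ^ k := by
      funext k
      rw [tm_coe, show m + 1 + k + 1 = (m + 2) + k by omega, pow_add]
      ring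
    have h3 : τ / C = (1 / 2 : ℝ) ^ (m + 2) / C * 2 := by
      rw [hτd, tm_coe, pow_succ (1 / 2 : ℝ) (m + 1)]
      ring
    rw [h2, h3]
    exact h1
  have hnorm : ∀ k, (∫ t in Set.Ioc (0 : ℝ) 1, ‖w T (Lv T (m + 1 + k)) (e j) t‖) ≤
      ((tm (m + 1 + k + 1) : NNReal) : ℝ) / C := by
    intro k
    have h1 : (∫ t in Set.Ioc (0 : ℝ) 1, ‖w T (Lv T (m + 1 + k)) (e j) t‖) =
        ∫ t in (0 : ℝ)..1, w T (Lv T (m + 1 + k)) (e j) t := by
      rw [intervalIntegral.integral_of_le (by norm_num)]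
      apply integral_congr_ae
      exact Eventually.of_forall fun t => by
        simp only
        rw [Real.norm_eq_abs, abs_of_nonneg (w_nonneg hT _ (e_pos j) t)]
    rw [h1, le_div_iff₀ hC0, mul_comm]
    exact hocc _
  have hsumm : Summable fun k => ∫ t in Set.Ioc (0 : ℝ) 1, ‖w T (Lv T (m + 1 + k)) (e j) t‖ :=
    Summable.of_nonneg_of_le (fun k => integral_nonneg fun t => norm_nonneg _) hnorm
      hgeo.summable
  have hHS := hasSum_integral_of_summable_integral_norm
    (F := fun k t => w T (Lv T (m + 1 + k)) (e j) t)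
    (μ := volume.restrict (Set.Ioc (0 : ℝ) 1)) (fun k => by
      have := (w_cont hT (Lv T (m + 1 + k)) (e j)).intervalIntegrable (μ := volume) 0 1
      rw [intervalIntegrable_iff_integrableOn_Ioc_of_le (by norm_num)] at this
      exact this) hsumm
  have htot : (∫ t in Set.Ioc (0 : ℝ) 1, ∑' k, w T (Lv T (m + 1 + k)) (e j) t) =
      ∫ t in (0 : ℝ)..1, w T (Sl T m)ᶜ (e j) t := by
    rw [intervalIntegral.integral_of_le (by norm_num)]
    apply integral_congr_ae
    exact Eventually.of_forall fun t => (hpt t).tsum_eq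
  rw [htot] at hHS
  have hup : (∫ t in (0 : ℝ)..1, w T (Sl T m)ᶜ (e j) t) ≤ τ / C := by
    refine hasSum_le (fun k => ?_) hHS hgeo
    refine le_trans ?_ (hnorm k)
    apply le_of_eq
    apply integral_congr_ae
    exact Eventually.of_forall fun t => by
      simp only
      rw [Real.norm_eq_abs, abs_of_nonneg (w_nonneg hT _ (e_pos j) t)]
  have h8 : C / 4 ≤ τ / C := hlow2.trans hup
  rw [le_div_iff₀ hC0] at h8
  nlinarith

lemma norm_sub_e_le (hT : SG T) {t : NNReal} {j : ℕ} (h : 3 / 4 ≤ (T t (e j)) j) :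
    ‖T t (e j) - e j‖ ≤ 1 / 2 := by
  have h1 : one (e j) = one (T t (e j)) := ((hT.markov t).one_map _).symm
  have h2 : Pos ((1 - (T t (e j)) j) • e j) := by
    apply pos_smul _ (e_pos j)
    have h3 := abs_coord_le (T t (e j)) j
    rw [(hT.markov t).norm _ (e_pos j), norm_e] at h3
    have := le_abs_self ((T t (e j)) j)
    linarith
  have h4 := norm_sub_le_of_le h1 h2 (by
    intro n
    rw [lp.coeFn_smul, Pi.smul_apply, smul_eq_mul]
    by_cases hn : n = j
    · subst hn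
      rw [e_apply_self, mul_one]
    · rw [e_apply_ne hn, mul_zero]
      have := (hT.markov t).pos _ (e_pos j) n
      linarith)
  rw [norm_sub_rev]
  refine h4.trans ?_
  rw [map_smul, smul_eq_mul, one_eq_norm (e_pos j), norm_e]
  linarith

theorem main (hT : SG T) {c : ℝ} (hc : 0 < c)
    (hbelow : ∀ t : NNReal, t ≤ 1 → ∀ x, c * ‖x‖ ≤ ‖T t x‖) :
    Tendsto T (𝓝 0) (𝓝 (ContinuousLinearMap.id ℝ L1)) := by
  obtain ⟨m0, hm0⟩ := levels_bounded hT hc hbelow
  -- all states are slow beyond m0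
  have hslow : ∀ m, m0 < m → ∀ j, 3 / 4 ≤ (T (tm m) (e j)) j := by
    intro m hm j
    by_contra hcon
    have hj : j ∈ (Sl T m0)ᶜ := fun h => hcon (h m hm)
    rw [compl_Sl hT] at hj
    obtain ⟨k, hk⟩ := Set.mem_iUnion.1 hj
    rw [hm0 (m0 + 1 + k) (by omega)] at hk
    exact hk
  -- norm bound at dyadic times
  have hd : ∀ m, m0 < m → ∀ x, ‖T (tm m) x - x‖ ≤ 1 / 2 * ‖x‖ := by
    intro m hm x
    exact norm_le_of_basis (T (tm m) - ContinuousLinearMap.id ℝ L1)
      (fun j => norm_sub_e_le hT (hslow m hm j)) x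
  have hdec : ∀ k, ∀ x, ‖T (tm (m0 + 1 + k)) x - x‖ ≤ 1 / 2 * (2 / 3) ^ k * ‖x‖ := by
    intro k
    induction k with
    | zero => intro x; simpa using hd (m0 + 1) (by omega) x
    | succ k ih =>
      intro x
      set h := tm (m0 + 1 + k + 1) with hh
      have hhh : h + h = tm (m0 + 1 + k) := tm_add _
      set z := T h x - x with hz
      have e1 : T (tm (m0 + 1 + k)) x - x = (2 : ℝ) • z + (T h z - z) := by
        rw [hz, map_sub, ← hT.apply_add, hhh]
        module
      have h1 : (3 / 2 : ℝ) * ‖z‖ ≤ ‖T (tm (m0 + 1 + k)) x - x‖ := by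
        rw [e1]
        have h2 := norm_sub_le ((2 : ℝ) • z + (T h z - z)) (T h z - z)
        rw [add_sub_cancel_right, norm_smul] at h2
        have h3 : ‖T h z - z‖ ≤ 1 / 2 * ‖z‖ := hd _ (by omega) z
        have h4 : ‖(2 : ℝ)‖ = 2 := by norm_num
        rw [h4] at h2
        linarith
      have h5 := ih x
      have h6 : (2 / 3 : ℝ) ^ (k + 1) = (2 / 3) ^ k * (2 / 3) := pow_succ _ _
      rw [← add_assoc, h6]
      linarith
  -- grid times
  have hgrid : ∀ k0 J : ℕ, ∀ a : ℕ, (a : NNReal) * tm (m0 + 1 + (k0 + J)) ≤ tm (m0 + 1 + k0) →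
      ∀ x, ‖T (a * tm (m0 + 1 + (k0 + J))) x - x‖ ≤
        (∑ i ∈ Finset.range (J + 1), 1 / 2 * (2 / 3 : ℝ) ^ (k0 + i)) * ‖x‖ := by
    intro k0 J
    induction J with
    | zero =>
      intro a ha x
      have ha1 : a ≤ 1 := by
        have h1 : (a : NNReal) * tm (m0 + 1 + k0) ≤ 1 * tm (m0 + 1 + k0) := by simpa using ha
        have h2 := le_of_mul_le_mul_right h1 (tm_pos _)
        exact_mod_cast h2
      simp only [add_zero, zero_add, Finset.range_one, Finset.sum_singleton]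
      interval_cases a
      · simp only [Nat.cast_zero, zero_mul]
        rw [hT.zero]
        simp only [ContinuousLinearMap.id_apply, sub_self, norm_zero]
        positivity
      · simpa using hdec k0 x
    | succ J ih =>
      intro a ha x
      have h1 : tm (m0 + 1 + (k0 + (J + 1))) + tm (m0 + 1 + (k0 + (J + 1))) =
          tm (m0 + 1 + (k0 + J)) := tm_add _
      set h := tm (m0 + 1 + (k0 + (J + 1))) with hh
      have hdm : a = 2 * (a / 2) + a % 2 := (Nat.div_add_mod a 2).symm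
      have h2 : (a : NNReal) * h = ((a / 2 : ℕ) : NNReal) * tm (m0 + 1 + (k0 + J)) +
          ((a % 2 : ℕ) : NNReal) * h := by
        rw [← h1]
        conv_lhs => rw [hdm]
        push_cast
        ring
      have h3 : ((a / 2 : ℕ) : NNReal) * tm (m0 + 1 + (k0 + J)) ≤ tm (m0 + 1 + k0) := by
        refine le_trans ?_ ha
        rw [h2]
        exact le_self_add
      have h4 := ih (a / 2) h3
      have h5 : ∀ y, ‖T (((a % 2 : ℕ) : NNReal) * h) y - y‖ ≤
          1 / 2 * (2 / 3 : ℝ) ^ (k0 + (J + 1)) * ‖y‖ := by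
        intro y
        have hlt : a % 2 < 2 := Nat.mod_lt _ (by norm_num)
        rcases Nat.lt_succ_iff.1 hlt |>.lt_or_eq with h0 | h0
        · have : a % 2 = 0 := by omega
          rw [this, Nat.cast_zero, zero_mul, hT.zero]
          simp only [ContinuousLinearMap.id_apply, sub_self, norm_zero]
          positivity
        · rw [h0, Nat.cast_one, one_mul]
          exact hdec (k0 + (J + 1)) y
      rw [h2, hT.apply_add, Finset.sum_range_succ, add_mul]
      set y := T (((a % 2 : ℕ) : NNReal) * h) x with hy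
      have hyn : ‖y‖ ≤ ‖x‖ := (hT.markov _).norm_le x
      have hy1 : T (((a / 2 : ℕ) : NNReal) * tm (m0 + 1 + (k0 + J))) y - x =
          T (((a / 2 : ℕ) : NNReal) * tm (m0 + 1 + (k0 + J))) (y - x) +
          (T (((a / 2 : ℕ) : NNReal) * tm (m0 + 1 + (k0 + J))) x - x) := by
        rw [map_sub]; abel
      rw [hy1]
      refine (norm_add_le _ _).trans ?_
      have h6 := (hT.markov (((a / 2 : ℕ) : NNReal) * tm (m0 + 1 + (k0 + J)))).norm_le (y - x)
      have h7 := h5 x
      have h8 := h4 x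
      linarith
  have hsum : ∀ k0 J : ℕ, (∑ i ∈ Finset.range (J + 1), 1 / 2 * (2 / 3 : ℝ) ^ (k0 + i)) ≤
      3 / 2 * (2 / 3) ^ k0 := by
    intro k0 J
    have h1 : ∀ J : ℕ, (∑ i ∈ Finset.range J, 1 / 2 * (2 / 3 : ℝ) ^ (k0 + i)) =
        3 / 2 * (2 / 3) ^ k0 - 3 / 2 * (2 / 3) ^ (k0 + J) := by
      intro J
      induction J with
      | zero => simp
      | succ J ih => rw [Finset.sum_range_succ, ih, ← add_assoc, pow_succ]; ring
    rw [h1]
    have : (0 : ℝ) ≤ 3 / 2 * (2 / 3) ^ (k0 + (J + 1)) := by positivity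
    linarith
  -- all times
  have hall : ∀ k0 : ℕ, ∀ t : NNReal, t ≤ tm (m0 + 1 + k0) → ∀ x,
      ‖T t x - x‖ ≤ 3 / 2 * (2 / 3) ^ k0 * ‖x‖ := by
    intro k0 t ht x
    set u : ℕ → NNReal := fun J => (⌊t / tm (m0 + 1 + (k0 + J))⌋₊ : NNReal) *
      tm (m0 + 1 + (k0 + J)) with hu
    have hu1 : ∀ J, u J ≤ t := by
      intro J
      rw [hu]
      simp only
      rw [← le_div_iff₀ (tm_pos _)]
      exact Nat.floor_le (by positivity)
    have hu2 : ∀ J, t ≤ u J + tm (m0 + 1 + (k0 + J)) := by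
      intro J
      rw [hu]
      simp only
      have h1 := (Nat.lt_floor_add_one (t / tm (m0 + 1 + (k0 + J)))).le
      rw [div_le_iff₀ (tm_pos _)] at h1
      rw [add_mul, one_mul] at h1
      exact h1
    have hu3 : Tendsto u atTop (𝓝 t) := by
      have h0 : Tendsto (fun J => t - tm (m0 + 1 + (k0 + J))) atTop (𝓝 (t - 0)) := by
        apply Tendsto.sub tendsto_const_nhds
        have := tm_tendsto.comp (tendsto_add_atTop_nat (m0 + 1 + k0))
        refine this.congr fun J => ?_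
        simp only [Function.comp]
        congr 1
        omega
      rw [tsub_zero] at h0
      refine tendsto_of_tendsto_of_tendsto_of_le_of_le h0 tendsto_const_nhds ?_ hu1
      intro J
      exact tsub_le_iff_right.2 (hu2 J)
    have hlim : Tendsto (fun J => ‖T (u J) x - x‖) atTop (𝓝 ‖T t x - x‖) := by
      have h1 : Tendsto (fun J => T (u J) x) atTop (𝓝 (T t x)) :=
        ((hT.cont x).tendsto t).comp hu3
      exact (h1.sub_const x).norm
    refine le_of_tendsto hlim (Eventually.of_forall fun J => ?_)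
    refine (hgrid k0 J _ ((hu1 J).trans ht) x).trans ?_
    exact mul_le_mul_of_nonneg_right (hsum k0 J) (norm_nonneg _)
  -- conclusion
  rw [Metric.tendsto_nhds]
  intro ε hε
  obtain ⟨k0, hk0⟩ := exists_pow_lt_of_lt_one (show 0 < ε / 3 by positivity)
    (show (2 / 3 : ℝ) < 1 by norm_num)
  have hev : ∀ᶠ t in 𝓝 (0 : NNReal), t < tm (m0 + 1 + k0) := by
    apply Filter.Tendsto.eventually_lt_const (tm_pos _) tendsto_id
  filter_upwards [hev] with t ht
  rw [dist_eq_norm]
  have h1 : ‖T t - ContinuousLinearMap.id ℝ L1‖ ≤ 3 / 2 * (2 / 3) ^ k0 := by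
    apply ContinuousLinearMap.opNorm_le_bound _ (by positivity)
    intro x
    exact hall k0 t ht.le x
  linarith

end

end Pool.Agent.H.MP_725863_an
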