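import Pool.Agent.H.MP_725863_an.Semi

set_option autoImplicit false

namespace Pool.Agent.H.MP_725863_an

open scoped BigOperators
open MeasureTheory

lemma hasSum_proj_iUnion {A : ℕ → Set ℕ} (hA : Pairwise (Function.onFun Disjoint A)) {y : L1}
    (hy : Pos y) : HasSum (fun k => one (proj (A k) y)) (one (proj (⋃ k, A k) y)) := by
  have hn : ∀ n : ℕ, HasSum (fun k => (proj (A k) y) n) ((proj (⋃ k, A k) y) n) := by
    intro n
    by_cases h : n ∈ ⋃ k, A k
    · obtain ⟨k0, hk0⟩ := Set.mem_iUnion.1 h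
      rw [proj_apply_mem _ h, ← proj_apply_mem (S := A k0) y hk0]
      apply hasSum_single
      intro k hk
      apply proj_apply_notMem
      intro hnk
      exact Set.disjoint_left.1 (hA hk) hnk hk0
    · rw [proj_apply_notMem _ h]
      have : (fun k => (proj (A k) y) n) = fun _ => 0 := by
        funext k
        apply proj_apply_notMem
        intro hnk
        exact h (Set.mem_iUnion.2 ⟨k, hnk⟩)
      rw [this]
      exact hasSum_zero
  have hs : Summable (fun p : ℕ × ℕ => (proj (A p.2) y) p.1) := by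
    rw [summable_prod_of_nonneg (fun p => proj_pos hy _)]
    refine ⟨fun n => (hn n).summable, ?_⟩
    have : (fun n => ∑' k, (proj (A k) y) n) = fun n => (proj (⋃ k, A k) y) n := by
      funext n; exact (hn n).tsum_eq
    simp only
    rw [this]
    exact summable_coe _
  have h1 : HasSum (fun p : ℕ × ℕ => (proj (A p.2) y) p.1) (one (proj (⋃ k, A k) y)) := by
    have h2 := hs.hasSum.prod_fiberwise hn
    have h3 := (summable_coe (proj (⋃ k, A k) y)).hasSum
    have h4 := h2.unique h3
    have h5 := hs.hasSum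
    rw [h4] at h5
    exact h5
  have h6 : HasSum (fun p : ℕ × ℕ => (proj (A p.1) y) p.2) (one (proj (⋃ k, A k) y)) := by
    rw [← (Equiv.prodComm ℕ ℕ).hasSum_iff] at h1
    exact h1
  exact h6.prod_fiberwise (fun k => (summable_coe (proj (A k) y)).hasSum)

/-- mass in `A` at real time `t` -/
noncomputable def w (T : NNReal → (L1 →L[ℝ] L1)) (A : Set ℕ) (x : L1) (t : ℝ) : ℝ :=
  one (proj A (T t.toNNReal x))

section
variable {T : NNReal → (L1 →L[ℝ] L1)}

lemma w_cont (hT : SG T) (A : Set ℕ) (x : L1) : Continuous (w T A x) :=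
  (oneC.comp (projC A)).continuous.comp ((hT.cont x).comp continuous_real_toNNReal)

lemma w_nonneg (hT : SG T) (A : Set ℕ) {x : L1} (hx : Pos x) (t : ℝ) : 0 ≤ w T A x t :=
  one_nonneg (proj_pos ((hT.markov _).pos _ hx))

theorem occInt (hT : SG T) {C : ℝ} {m : ℕ}
    (h : ∀ j ∈ Lv T m, C ≤ one ((Lop (T (tm (m + 1))) (Sl T m) ^ (2 ^ (m + 1))) (e j)))
    {x : L1} (hx : Pos x) :
    C * ∫ t in (0 : ℝ)..1, w T (Lv T m) x t ≤ (tm (m + 1) : ℝ) * one x := by
  set n : ℕ := 2 ^ (m + 1) with hn
  set τ : ℝ := ((tm (m + 1) : NNReal) : ℝ) with hτ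
  have hτ0 : 0 ≤ τ := NNReal.coe_nonneg _
  have hnτ : (n : ℝ) * τ = 1 := by
    have := two_pow_mul_tm (m + 1)
    have h2 := congrArg (fun z : NNReal => (z : ℝ)) this
    simpa [hn, hτ] using h2
  set f := w T (Lv T m) x with hf
  have hfc : Continuous f := w_cont hT _ _
  have hint : ∀ a b : ℝ, IntervalIntegrable f volume a b := fun a b =>
    hfc.intervalIntegrable a b
  have h1 := intervalIntegral.sum_integral_adjacent_intervals (f := f) (μ := volume)
    (a := fun k : ℕ => (k : ℝ) * τ) (n := n) (fun k _ => hint _ _)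
  simp only [Nat.cast_zero, zero_mul, hnτ] at h1
  rw [← h1]
  have h2 : ∀ k ∈ Finset.range n, (∫ t in ((k : ℕ) : ℝ) * τ..((k + 1 : ℕ) : ℝ) * τ, f t) =
      ∫ r in (0 : ℝ)..τ, f ((k : ℝ) * τ + r) := by
    intro k _
    rw [intervalIntegral.integral_comp_add_left]
    congr 1
    · ring
    · push_cast; ring
  rw [Finset.sum_congr rfl h2]
  have h3 : ∀ k ∈ Finset.range n, IntervalIntegrable (fun r => f ((k : ℝ) * τ + r)) volume 0 τ :=
    fun k _ => (hfc.comp (continuous_const.add continuous_id)).intervalIntegrable _ _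
  rw [← intervalIntegral.integral_finsetSum h3, ← intervalIntegral.integral_const_mul]
  have h4 : (∫ _ in (0 : ℝ)..τ, one x) = τ * one x := by
    rw [intervalIntegral.integral_const]; simp
  rw [← h4]
  apply intervalIntegral.integral_mono_on hτ0
  · refine Continuous.intervalIntegrable ?_ _ _
    refine continuous_const.mul (continuous_finsetSum _ fun k _ => ?_)
    exact hfc.comp (continuous_const.add continuous_id)
  · exact intervalIntegrable_const
  · intro r hr
    have hr0 : 0 ≤ r := hr.1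
    have hk : ∀ k : ℕ, f ((k : ℝ) * τ + r) =
        one (proj (Lv T m) ((T (tm (m + 1)) ^ k) (T r.toNNReal x))) := by
      intro k
      rw [hf, w, hT.pow, ← hT.apply_add]
      congr 4
      rw [Real.toNNReal_add (by positivity) hr0, Real.toNNReal_mul (Nat.cast_nonneg k),
        Real.toNNReal_natCast, hτ, Real.toNNReal_coe]
    simp only [hk]
    have := occupation (P := T (tm (m + 1))) (S := Sl T m) (x := T r.toNNReal x) (hT.markov _)
      (A := Lv T m) Set.inter_subset_right (n := n) (c := C) h ((hT.markov _).pos _ hx)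
    rwa [(hT.markov _).one_map] at this

theorem lowInt (hT : SG T) {C : ℝ} {m j b : ℕ} (hb : (b : ℝ) * tm (m + 1) ≤ 1)
    (h : ∀ r : NNReal, b * tm (m + 1) + r ≤ 1 →
      C ≤ one ((Lop (T (tm (m + 1))) (Sl T m) ^ b) (T r (e j)))) :
    (1 - b * tm (m + 1)) * (C - (1 / 2) ^ b) ≤
      ∫ t in (0 : ℝ)..1, w T (Sl T m)ᶜ (e j) t := by
  set τ : ℝ := ((tm (m + 1) : NNReal) : ℝ) with hτ
  have hτ0 : 0 ≤ τ := NNReal.coe_nonneg _
  set f := w T (Sl T m)ᶜ (e j) with hf
  have hfc : Continuous f := w_cont hT _ _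
  have hf0 : ∀ t, 0 ≤ f t := fun t => w_nonneg hT _ (e_pos j) t
  have hI0 : 0 ≤ ∫ t in (0 : ℝ)..1, f t :=
    intervalIntegral.integral_nonneg (by norm_num) (fun t _ => hf0 t)
  set s : ℝ := 1 - b * τ with hs
  have hs0 : 0 ≤ s := by rw [hs]; linarith
  have h1 : (∫ _ in (0 : ℝ)..s, (C - (1 / 2) ^ b)) = s * (C - (1 / 2) ^ b) := by
    rw [intervalIntegral.integral_const]; simp
  rw [← h1]
  have h2 : (∫ _ in (0 : ℝ)..s, (C - (1 / 2) ^ b)) ≤
      ∫ r in (0 : ℝ)..s, ∑ l ∈ Finset.range b, (1 / 2 : ℝ) ^ (l + 1) * f ((l : ℝ) * τ + r) := by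
    apply intervalIntegral.integral_mono_on hs0
    · exact intervalIntegrable_const
    · refine Continuous.intervalIntegrable ?_ _ _
      refine continuous_finsetSum _ fun k _ => ?_
      exact continuous_const.mul (hfc.comp (continuous_const.add continuous_id))
    · intro r hr
      have hr0 : 0 ≤ r := hr.1
      have hk : ∀ k : ℕ, f ((k : ℝ) * τ + r) =
          one (proj (Sl T m)ᶜ ((T (tm (m + 1)) ^ k) (T r.toNNReal (e j)))) := by
        intro k
        rw [hf, w, hT.pow, ← hT.apply_add]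
        congr 4
        rw [Real.toNNReal_add (by positivity) hr0, Real.toNNReal_mul (Nat.cast_nonneg k),
          Real.toNNReal_natCast, hτ, Real.toNNReal_coe]
      simp only [hk]
      have h3 := offS (P := T (tm (m + 1))) (S := Sl T m) (hT.markov _) b
        (x := T r.toNNReal (e j)) ((hT.markov _).pos _ (e_pos j))
      have h4 : one (T r.toNNReal (e j)) = 1 := by
        rw [(hT.markov _).one_map, one_eq_norm (e_pos j), norm_e]
      rw [h4, mul_one] at h3
      have h5 := h r.toNNReal (by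
        rw [← NNReal.coe_le_coe]
        push_cast
        rw [Real.coe_toNNReal r hr0]
        have := hr.2
        rw [hs] at this
        linarith)
      linarith
  refine h2.trans ?_
  have h8 : ∀ l ∈ Finset.range b, IntervalIntegrable
      (fun r => (1 / 2 : ℝ) ^ (l + 1) * f ((l : ℝ) * τ + r)) volume 0 s := fun l _ =>
    (continuous_const.mul (hfc.comp (continuous_const.add continuous_id))).intervalIntegrable _ _
  rw [intervalIntegral.integral_finsetSum h8]
  have h6 : ∀ l ∈ Finset.range b, (∫ r in (0 : ℝ)..s, (1 / 2 : ℝ) ^ (l + 1) *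
      f ((l : ℝ) * τ + r)) ≤ (1 / 2 : ℝ) ^ (l + 1) * ∫ t in (0 : ℝ)..1, f t := by
    intro l hl
    rw [intervalIntegral.integral_const_mul]
    refine mul_le_mul_of_nonneg_left ?_ (by positivity)
    rw [intervalIntegral.integral_comp_add_left]
    have hlb : ((l : ℝ) + 1) ≤ b := by exact_mod_cast Finset.mem_range.1 hl
    apply intervalIntegral.integral_mono_interval
    · have : 0 ≤ (l : ℝ) * τ := by positivity
      linarith
    · linarith
    · have : (l : ℝ) * τ ≤ b * τ := mul_le_mul_of_nonneg_right (by linarith) hτ0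
      rw [hs]; linarith
    · exact Filter.Eventually.of_forall fun t => hf0 t
    · exact hfc.intervalIntegrable _ _
  refine (Finset.sum_le_sum h6).trans ?_
  rw [← Finset.sum_mul]
  have h7 : ∑ l ∈ Finset.range b, (1 / 2 : ℝ) ^ (l + 1) ≤ 1 := by
    have : ∀ b : ℕ, ∑ l ∈ Finset.range b, (1 / 2 : ℝ) ^ (l + 1) = 1 - (1 / 2) ^ b := by
      intro b
      induction b with
      | zero => simp
      | succ b ih => rw [Finset.sum_range_succ, ih, pow_succ]; ring
    rw [this]
    have : (0 : ℝ) ≤ (1 / 2) ^ b := by positivity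
    linarith
  calc (∑ l ∈ Finset.range b, (1 / 2 : ℝ) ^ (l + 1)) * ∫ t in (0 : ℝ)..1, f t
      ≤ 1 * ∫ t in (0 : ℝ)..1, f t := mul_le_mul_of_nonneg_right h7 hI0
    _ = ∫ t in (0 : ℝ)..1, f t := one_mul _

end

end Pool.Agent.H.MP_725863_an
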