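import Pool.Agent.H.MP_725863_an.Smooth2

set_option autoImplicit false

namespace Pool.Agent.H.MP_725863_an

open scoped BigOperators

lemma norm_proj_le (S : Set ℕ) (x : L1) : ‖proj S x‖ ≤ ‖x‖ := by
  rw [norm_eq, norm_eq]
  refine (summable_abs _).tsum_le_tsum (fun n => ?_) (summable_abs x)
  by_cases h : n ∈ S
  · rw [proj_apply_mem _ h]
  · rw [proj_apply_notMem _ h]; simp

/-- projection as a continuous map -/
noncomputable def projC (S : Set ℕ) : L1 →L[ℝ] L1 :=
  LinearMap.mkContinuous (proj S) 1 (fun x => by rw [one_mul]; exact norm_proj_le S x)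

lemma projC_apply (S : Set ℕ) (x : L1) : projC S x = proj S x := rfl

/-- discounted operator as a continuous map -/
noncomputable def LopC (P : L1 →L[ℝ] L1) (S : Set ℕ) : L1 →L[ℝ] L1 :=
  P.comp (projC Sᶜ) + (1 / 2 : ℝ) • (P.comp (projC S))

section
variable {P : L1 →L[ℝ] L1} {S : Set ℕ} {x : L1}

lemma LopC_pow_apply (k : ℕ) : ∀ y : L1, (LopC P S ^ k) y = (Lop P S ^ k) y := by
  induction k with
  | zero => intro y; simp
  | succ k ih =>
    intro y
    rw [pow_succ, pow_succ, mul_apply_eq_comp, Module.End.mul_apply, ih]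
    rfl

lemma Lop_pos (hP : Markov P) {y : L1} (hy : Pos y) : Pos (Lop P S y) := by
  rw [Lop_apply]
  exact pos_add (hP.pos _ (proj_pos hy)) (pos_smul (by norm_num) (hP.pos _ (proj_pos hy)))

lemma Lop_pow_pos (hP : Markov P) (k : ℕ) : ∀ {y : L1}, Pos y → Pos ((Lop P S ^ k) y) := by
  induction k with
  | zero => intro y hy; simpa using hy
  | succ k ih =>
    intro y hy
    rw [pow_succ, Module.End.mul_apply]
    exact ih (Lop_pos hP hy)

lemma one_Lop_le (hP : Markov P) {y : L1} (hy : Pos y) : one (Lop P S y) ≤ one y := by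
  rw [Lop_apply, map_add, map_smul, hP.one_map, hP.one_map, smul_eq_mul]
  have h := proj_add_compl S y
  have h2 : one (proj S y) + one (proj Sᶜ y) = one y := by rw [← map_add, h]
  have h3 := one_nonneg (proj_pos (S := S) hy)
  linarith

lemma one_Lop_pow_anti (hP : Markov P) {y : L1} (hy : Pos y) {m n : ℕ} (h : m ≤ n) :
    one ((Lop P S ^ n) y) ≤ one ((Lop P S ^ m) y) := by
  induction n, h using Nat.le_induction with
  | base => exact le_refl _
  | succ n hmn ih =>
    rw [pow_succ', Module.End.mul_apply]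
    exact (one_Lop_le hP (Lop_pow_pos hP n hy)).trans ih

lemma one_Lop_pow_le (hP : Markov P) {y : L1} (hy : Pos y) (n : ℕ) :
    one ((Lop P S ^ n) y) ≤ one y := by
  simpa using one_Lop_pow_anti (S := S) hP hy (Nat.zero_le n)

lemma telescoping (hP : Markov P) (n : ℕ) : ∀ x : L1,
    ∑ l ∈ Finset.range n, one ((Lop P S ^ (n - l)) (proj S ((P ^ l) x))) =
      one x - one ((Lop P S ^ n) x) := by
  induction n with
  | zero => intro x; simp
  | succ n ih =>
    intro x
    rw [Finset.sum_range_succ']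
    have h1 : ∀ l ∈ Finset.range n,
        one ((Lop P S ^ (n + 1 - (l + 1))) (proj S ((P ^ (l + 1)) x))) =
        one ((Lop P S ^ (n - l)) (proj S ((P ^ l) (P x)))) := by
      intro l _
      rw [Nat.add_sub_add_right, pow_succ P l, mul_apply_eq_comp]
    rw [Finset.sum_congr rfl h1, ih (P x)]
    simp only [pow_zero, Nat.sub_zero]
    have h2 : ((1 : L1 →L[ℝ] L1)) x = x := rfl
    rw [h2, pow_succ, Module.End.mul_apply, Module.End.mul_apply, Lop_apply, Lop_apply,
      proj_proj, proj_compl_proj, hP.one_map]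
    simp only [map_zero, zero_add, map_add, map_smul, smul_eq_mul]
    have h3 : (Lop P S ^ n) (P x) = (Lop P S ^ n) (P (proj S x)) +
        (Lop P S ^ n) (P (proj Sᶜ x)) := by
      rw [← map_add, ← map_add, proj_add_compl]
    rw [h3, map_add]
    ring

lemma one_Lop_pow_proj_ge {A : Set ℕ} {c : ℝ} {k : ℕ}
    (h : ∀ j ∈ A, c ≤ one ((Lop P S ^ k) (e j))) {y : L1} (hy : Pos y) :
    c * one (proj A y) ≤ one ((Lop P S ^ k) (proj A y)) := by
  have h1 : HasSum (fun j => (proj A y) j * one ((Lop P S ^ k) (e j)))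
      (one ((Lop P S ^ k) (proj A y))) := by
    have h0 := (hasSum_e (proj A y)).mapL (oneC.comp (LopC P S ^ k))
    have h00 : (fun j => (oneC.comp (LopC P S ^ k)) ((proj A y) j • e j)) =
        fun j => (proj A y) j * one ((Lop P S ^ k) (e j)) := by
      funext j
      rw [map_smul, ContinuousLinearMap.comp_apply, oneC_apply, LopC_pow_apply, smul_eq_mul]
    rw [h00, ContinuousLinearMap.comp_apply, oneC_apply, LopC_pow_apply] at h0
    exact h0
  have h2 : HasSum (fun j => (proj A y) j * c) (c * one (proj A y)) := by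
    have := ((summable_coe (proj A y)).hasSum).mul_right c
    rw [mul_comm]
    exact this
  refine hasSum_le (fun j => ?_) h2 h1
  by_cases hj : j ∈ A
  · exact mul_le_mul_of_nonneg_left (h j hj) (proj_pos hy j)
  · rw [proj_apply_notMem _ hj]; simp

lemma Markov.pow_pos (hP : Markov P) (k : ℕ) : ∀ {y : L1}, Pos y → Pos ((P ^ k) y) := by
  induction k with
  | zero => intro y hy; simpa using hy
  | succ k ih =>
    intro y hy
    rw [pow_succ, mul_apply_eq_comp]
    exact ih (hP.pos _ hy)

/-- occupation estimate -/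
theorem occupation (hP : Markov P) {A : Set ℕ} (hA : A ⊆ S) {n : ℕ} {c : ℝ}
    (h : ∀ j ∈ A, c ≤ one ((Lop P S ^ n) (e j))) (hx : Pos x) :
    c * ∑ l ∈ Finset.range n, one (proj A ((P ^ l) x)) ≤ one x := by
  have h1 := telescoping (S := S) hP n x
  have h2 : ∀ l ∈ Finset.range n, c * one (proj A ((P ^ l) x)) ≤
      one ((Lop P S ^ (n - l)) (proj S ((P ^ l) x))) := by
    intro l _
    have hy : Pos ((P ^ l) x) := hP.pow_pos l hx
    have h3 := one_Lop_pow_proj_ge (P := P) (S := S) (A := A) (c := c) (k := n - l)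
      (fun j hj => (h j hj).trans (one_Lop_pow_anti hP (e_pos j) (Nat.sub_le n l))) hy
    refine h3.trans ?_
    apply one_mono
    rw [← map_sub]
    apply Lop_pow_pos hP
    apply pos_sub
    intro i
    by_cases hi : i ∈ A
    · rw [proj_apply_mem _ hi, proj_apply_mem _ (hA hi)]
    · rw [proj_apply_notMem _ hi]; exact proj_pos hy i
  rw [Finset.mul_sum]
  refine (Finset.sum_le_sum h2).trans ?_
  rw [h1]
  have := one_nonneg (Lop_pow_pos (S := S) hP n hx)
  linarith

/-- lower bound for the time spent off `S` -/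
theorem offS (hP : Markov P) (b : ℕ) : ∀ {x : L1}, Pos x →
    one ((Lop P S ^ b) x) ≤ (1 / 2) ^ b * one x +
      ∑ l ∈ Finset.range b, (1 / 2 : ℝ) ^ (l + 1) * one (proj Sᶜ ((P ^ l) x)) := by
  induction b with
  | zero => intro x hx; simp
  | succ b ih =>
    intro x hx
    have h1 := ih (hP.pos _ hx)
    rw [pow_succ (Lop P S) b, Module.End.mul_apply]
    have h2 : Lop P S x = (1 / 2 : ℝ) • P x + (1 / 2 : ℝ) • P (proj Sᶜ x) := by
      rw [Lop_apply]
      have : P x = P (proj S x) + P (proj Sᶜ x) := by rw [← map_add, proj_add_compl]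
      rw [this]
      module
    have h3 : one ((Lop P S ^ b) (P (proj Sᶜ x))) ≤ one (proj Sᶜ x) := by
      have := one_Lop_pow_le (S := S) hP (hP.pos _ (proj_pos (S := Sᶜ) hx)) b
      rwa [hP.one_map] at this
    rw [h2]
    simp only [map_add, map_smul, smul_eq_mul]
    rw [Finset.sum_range_succ']
    have h4 : ∀ l ∈ Finset.range b,
        (1 / 2 : ℝ) ^ (l + 1 + 1) * one (proj Sᶜ ((P ^ (l + 1)) x)) =
        (1 / 2) * ((1 / 2 : ℝ) ^ (l + 1) * one (proj Sᶜ ((P ^ l) (P x)))) := by
      intro l _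
      rw [pow_succ P l, mul_apply_eq_comp, pow_succ (1 / 2 : ℝ) (l + 1)]
      ring
    rw [Finset.sum_congr rfl h4, ← Finset.mul_sum]
    simp only [pow_zero, zero_add, pow_one]
    have h5 : ((1 : L1 →L[ℝ] L1)) x = x := rfl
    rw [h5]
    rw [hP.one_map] at h1
    rw [pow_succ (1 / 2 : ℝ) b]
    linarith

end

end Pool.Agent.H.MP_725863_an
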