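import Pool.Agent.H.MP_725863_an.Occ

set_option autoImplicit false

namespace Pool.Agent.H.MP_725863_an

open scoped BigOperators

/-- Markovian C₀-semigroups -/
structure SG (T : NNReal → (L1 →L[ℝ] L1)) : Prop where
  zero : T 0 = ContinuousLinearMap.id ℝ L1
  add : ∀ s t, T (s + t) = (T s).comp (T t)
  cont : ∀ x, Continuous fun t => T t x
  markov : ∀ t, Markov (T t)

/-- dyadic times -/
noncomputable def tm (m : ℕ) : NNReal := (1 / 2) ^ m

lemma tm_add (m : ℕ) : tm (m + 1) + tm (m + 1) = tm m := by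
  unfold tm
  rw [pow_succ, ← mul_add, ← two_mul]
  norm_num

lemma tm_pos (m : ℕ) : 0 < tm m := by unfold tm; positivity

lemma tm_coe (m : ℕ) : ((tm m : NNReal) : ℝ) = (1 / 2 : ℝ) ^ m := by
  unfold tm; push_cast; rfl

lemma two_pow_mul_tm (m : ℕ) : ((2 ^ m : ℕ) : NNReal) * tm m = 1 := by
  unfold tm
  push_cast
  rw [← mul_pow]
  norm_num

lemma abs_coord_le (x : L1) (j : ℕ) : |x j| ≤ ‖x‖ := by
  rw [norm_eq]
  exact (summable_abs x).le_tsum j (fun i _ => abs_nonneg _)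

lemma norm_ge_coord (z : L1) (j : ℕ) : one z - 2 * z j ≤ ‖z‖ := by
  have h1 : HasSum (fun n => |z n| - z n) (‖z‖ - one z) := by
    rw [norm_eq]
    exact (summable_abs z).hasSum.sub (summable_coe z).hasSum
  have h2 : |z j| - z j ≤ ‖z‖ - one z :=
    le_hasSum h1 j (fun i _ => sub_nonneg.2 (le_abs_self _))
  have h3 := neg_abs_le (z j)
  linarith

section
variable {T : NNReal → (L1 →L[ℝ] L1)}

lemma SG.pow (hT : SG T) (h : NNReal) (n : ℕ) : (T h) ^ n = T (n * h) := by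
  induction n with
  | zero =>
    rw [Nat.cast_zero, zero_mul, hT.zero, pow_zero]
    rfl
  | succ n ih =>
    rw [pow_succ, ih]
    have : ((n + 1 : ℕ) : NNReal) * h = n * h + h := by push_cast; ring
    rw [this, hT.add]
    rfl

lemma SG.apply_add (hT : SG T) (s t : NNReal) (x : L1) : T (s + t) x = T s (T t x) := by
  rw [hT.add]; rfl

lemma SG.comm (hT : SG T) (s t : NNReal) (x : L1) : T s (T t x) = T t (T s x) := by
  rw [← hT.apply_add, ← hT.apply_add, add_comm]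

/-- slow states -/
def Sl (T : NNReal → (L1 →L[ℝ] L1)) (m : ℕ) : Set ℕ :=
  {j | ∀ m', m < m' → 3 / 4 ≤ (T (tm m') (e j)) j}

/-- states of level `m` -/
def Lv (T : NNReal → (L1 →L[ℝ] L1)) (m : ℕ) : Set ℕ :=
  {j | (T (tm m) (e j)) j < 3 / 4} ∩ Sl T m

lemma level_lower (hT : SG T) {m j : ℕ} (hj : j ∈ Lv T m) :
    1 / 4 ≤ ‖T (tm (m + 1)) (e j) - e j‖ := by
  have h1 : (T (tm m) (e j)) j < 3 / 4 := hj.1
  have h2 := norm_ge_coord (T (tm m) (e j) - e j) j
  rw [map_sub, (hT.markov _).one_map, sub_self, lp.coeFn_sub, Pi.sub_apply, e_apply_self] at h2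
  have h3 : T (tm m) (e j) - e j = T (tm (m + 1)) (T (tm (m + 1)) (e j) - e j) +
      (T (tm (m + 1)) (e j) - e j) := by
    rw [map_sub, ← hT.apply_add, tm_add]
    abel
  have h4 : ‖T (tm m) (e j) - e j‖ ≤ ‖T (tm (m + 1)) (e j) - e j‖ +
      ‖T (tm (m + 1)) (e j) - e j‖ := by
    rw [h3]
    refine (norm_add_le _ _).trans ?_
    gcongr
    exact (hT.markov _).norm_le _
  linarith

lemma lower_L (hT : SG T) {c : ℝ} (hbelow : ∀ t : NNReal, t ≤ 1 → ∀ x, c * ‖x‖ ≤ ‖T t x‖)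
    (hc : 0 < c) {K : ℕ} (hK : 1 ≤ K) (hK2 : 8 / (3 / 4 * (K : ℝ)) ≤ c / 8)
    {m j : ℕ} (hj : j ∈ Lv T m) {n : ℕ} {r : NNReal} (hnr : n * tm (m + 1) + r ≤ 1) :
    c / 8 / 2 ^ (K ^ 2 + 1) ≤ one ((Lop (T (tm (m + 1))) (Sl T m) ^ n) (T r (e j))) := by
  set P := T (tm (m + 1)) with hP
  have hPM : Markov P := hT.markov _
  have hx : Pos (T r (e j)) := (hT.markov r).pos _ (e_pos j)
  have hxn : ‖T r (e j)‖ = 1 := by rw [(hT.markov r).norm _ (e_pos j), norm_e]
  have hsm := smoothing (P := P) (S := Sl T m) (α := 3 / 4) (x := T r (e j)) hPM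
    (by norm_num) (by norm_num) (fun i hi => hi (m + 1) (Nat.lt_succ_self m)) hx hK n
  have h1 : (P ^ n) (T r (e j)) - (P ^ (n + 1)) (T r (e j)) =
      T (n * tm (m + 1) + r) (-(P (e j) - e j)) := by
    rw [pow_succ, mul_apply_eq_comp, hP, hT.pow, hT.comm (tm (m + 1)) r, ← hT.apply_add,
      ← hT.apply_add, neg_sub, map_sub]
  rw [h1, hxn, mul_one] at hsm
  have h2 := hbelow _ hnr (-(P (e j) - e j))
  rw [norm_neg] at h2
  have h3 := level_lower hT hj
  have h4 : c * (1 / 4) ≤ c * ‖P (e j) - e j‖ := mul_le_mul_of_nonneg_left h3 hc.le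
  rw [div_le_iff₀ (by positivity)]
  linarith

end

end Pool.Agent.H.MP_725863_an
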