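import Pool.Agent.H.MP_725863_an.Basic

set_option autoImplicit false

namespace Pool.Agent.H.MP_725863_an

open scoped BigOperators

/-- weighted path sums -/
noncomputable def Phi (P : L1 →L[ℝ] L1) (S : Set ℕ) (α : ℝ) (x : L1) : ℕ → (ℕ → ℕ → ℝ) → L1
  | 0, f => f 0 0 • x
  | n + 1, f => P (proj Sᶜ (Phi P S α x n f))
      + α • proj S (Phi P S α x n (fun k v => f (k + 1) (v + 1)))
      + (P (proj S (Phi P S α x n (fun k v => f k (v + 1))))
        - α • proj S (Phi P S α x n (fun k v => f k (v + 1))))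

section
variable {P : L1 →L[ℝ] L1} {S : Set ℕ} {α : ℝ} {x : L1}

lemma Phi_zero (f : ℕ → ℕ → ℝ) : Phi P S α x 0 f = f 0 0 • x := rfl

lemma Phi_succ (n : ℕ) (f : ℕ → ℕ → ℝ) : Phi P S α x (n + 1) f =
    P (proj Sᶜ (Phi P S α x n f))
      + α • proj S (Phi P S α x n (fun k v => f (k + 1) (v + 1)))
      + (P (proj S (Phi P S α x n (fun k v => f k (v + 1))))
        - α • proj S (Phi P S α x n (fun k v => f k (v + 1)))) := rfl

lemma Phi_add (n : ℕ) : ∀ (f g : ℕ → ℕ → ℝ),
    Phi P S α x n (fun k v => f k v + g k v) = Phi P S α x n f + Phi P S α x n g := by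
  induction n with
  | zero => intro f g; simp only [Phi_zero, add_smul]
  | succ n ih =>
    intro f g
    simp only [Phi_succ]
    rw [ih f g, ih (fun k v => f (k + 1) (v + 1)) (fun k v => g (k + 1) (v + 1)),
      ih (fun k v => f k (v + 1)) (fun k v => g k (v + 1))]
    simp only [map_add]
    module

lemma Phi_smul (n : ℕ) : ∀ (c : ℝ) (f : ℕ → ℕ → ℝ),
    Phi P S α x n (fun k v => c * f k v) = c • Phi P S α x n f := by
  induction n with
  | zero => intro c f; simp only [Phi_zero, mul_smul]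
  | succ n ih =>
    intro c f
    simp only [Phi_succ]
    rw [ih c f, ih c (fun k v => f (k + 1) (v + 1)), ih c (fun k v => f k (v + 1))]
    simp only [map_smul]
    module

lemma Phi_sub (n : ℕ) (f g : ℕ → ℕ → ℝ) :
    Phi P S α x n (fun k v => f k v - g k v) = Phi P S α x n f - Phi P S α x n g := by
  have h := Phi_add (P := P) (S := S) (α := α) (x := x) n f (fun k v => (-1) * g k v)
  rw [Phi_smul] at h
  have h2 : (fun k v => f k v - g k v) = (fun k v => f k v + (-1) * g k v) := by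
    funext k v; ring
  rw [h2, h]
  module

lemma lazy_pos (hP : Markov P) (hL : ∀ j ∈ S, α ≤ (P (e j)) j) {y : L1}
    (hy : Pos y) : Pos (P (proj S y) - α • proj S y) := by
  intro n
  rw [lp.coeFn_sub, Pi.sub_apply, lp.coeFn_smul, Pi.smul_apply, smul_eq_mul]
  by_cases hn : n ∈ S
  · rw [proj_apply_mem _ hn]
    have hrest : Pos (proj S y - y n • e n) := by
      intro m
      rw [lp.coeFn_sub, Pi.sub_apply, lp.coeFn_smul, Pi.smul_apply, smul_eq_mul]
      by_cases hm : m = n
      · subst hm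
        rw [proj_apply_mem _ hn, e_apply_self]; simp
      · rw [e_apply_ne hm]
        simpa using proj_pos (S := S) hy m
    have h1 := hP.pos _ hrest n
    rw [map_sub, map_smul, lp.coeFn_sub, Pi.sub_apply, lp.coeFn_smul, Pi.smul_apply,
      smul_eq_mul] at h1
    have h2 := mul_le_mul_of_nonneg_left (hL n hn) (hy n)
    linarith
  · rw [proj_apply_notMem _ hn]
    have := hP.pos _ (proj_pos (S := S) hy) n
    simpa using this

lemma Phi_pos (hP : Markov P) (hα : 0 ≤ α) (hL : ∀ j ∈ S, α ≤ (P (e j)) j) (hx : Pos x)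
    (n : ℕ) : ∀ (f : ℕ → ℕ → ℝ), (∀ k v, 0 ≤ f k v) → Pos (Phi P S α x n f) := by
  induction n with
  | zero => intro f hf; exact pos_smul (hf 0 0) hx
  | succ n ih =>
    intro f hf
    rw [Phi_succ]
    refine pos_add (pos_add ?_ ?_) ?_
    · exact hP.pos _ (proj_pos (ih f hf))
    · exact pos_smul hα (proj_pos (ih _ fun k v => hf _ _))
    · exact lazy_pos hP hL (ih _ fun k v => hf _ _)

lemma Phi_mono (hP : Markov P) (hα : 0 ≤ α) (hL : ∀ j ∈ S, α ≤ (P (e j)) j) (hx : Pos x)
    (n : ℕ) {f g : ℕ → ℕ → ℝ} (h : ∀ k v, f k v ≤ g k v) :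
    Pos (Phi P S α x n g - Phi P S α x n f) := by
  rw [← Phi_sub]
  exact Phi_pos hP hα hL hx n _ fun k v => sub_nonneg.2 (h k v)

lemma Phi_one (n : ℕ) : Phi P S α x n (fun _ _ => 1) = (P ^ n) x := by
  induction n with
  | zero => simp [Phi_zero]
  | succ n ih =>
    rw [Phi_succ, ih, pow_succ', mul_apply_eq_comp]
    have h := proj_add_compl S ((P ^ n) x)
    have h2 : P ((P ^ n) x) = P (proj S ((P ^ n) x)) + P (proj Sᶜ ((P ^ n) x)) := by
      rw [← map_add, h]
    rw [h2]
    module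

lemma Phi_identity (n : ℕ) : ∀ (f : ℕ → ℕ → ℝ),
    Phi P S α x (n + 1) (fun k v => (k : ℝ) * f k v) =
      α • (Phi P S α x n (fun k v => (v : ℝ) * f (k + 1) (v + 1))
        + proj S (Phi P S α x n (fun k v => f (k + 1) (v + 1)))) := by
  induction n with
  | zero =>
    intro f
    simp only [Phi_succ, Phi_zero, Nat.cast_zero, zero_mul, zero_smul, map_zero]
    simp
  | succ n ih =>
    intro f
    rw [Phi_succ]
    have e1 := ih f
    have e2 := ih (fun k v => f k (v + 1))
    have e3 : Phi P S α x (n + 1) (fun (k v : ℕ) => ((k + 1 : ℕ) : ℝ) * f (k + 1) (v + 1)) =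
        α • (Phi P S α x n (fun k v => (v : ℝ) * f (k + 2) (v + 2))
        + proj S (Phi P S α x n (fun k v => f (k + 2) (v + 2))))
        + Phi P S α x (n + 1) (fun k v => f (k + 1) (v + 1)) := by
      have h1 : (fun (k v : ℕ) => ((k + 1 : ℕ) : ℝ) * f (k + 1) (v + 1)) =
          (fun (k v : ℕ) => (k : ℝ) * f (k + 1) (v + 1) + f (k + 1) (v + 1)) := by
        funext k v; push_cast; ring
      rw [h1, Phi_add, ih (fun k v => f (k + 1) (v + 1))]
    have e4 : Phi P S α x (n + 1) (fun k v => (v : ℝ) * f (k + 1) (v + 1)) =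
        P (proj Sᶜ (Phi P S α x n (fun k v => (v : ℝ) * f (k + 1) (v + 1))))
        + α • proj S (Phi P S α x n (fun k v => (v : ℝ) * f (k + 2) (v + 2))
            + Phi P S α x n (fun k v => f (k + 2) (v + 2)))
        + (P (proj S (Phi P S α x n (fun k v => (v : ℝ) * f (k + 1) (v + 2))
            + Phi P S α x n (fun k v => f (k + 1) (v + 2))))
          - α • proj S (Phi P S α x n (fun k v => (v : ℝ) * f (k + 1) (v + 2))
            + Phi P S α x n (fun k v => f (k + 1) (v + 2)))) := by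
      rw [Phi_succ, ← Phi_add, ← Phi_add]
      have h1 : (fun (k v : ℕ) => ((v + 1 : ℕ) : ℝ) * f (k + 1 + 1) (v + 1 + 1)) =
          (fun (k v : ℕ) => (v : ℝ) * f (k + 2) (v + 2) + f (k + 2) (v + 2)) := by
        funext k v; push_cast; ring
      have h2 : (fun (k v : ℕ) => ((v + 1 : ℕ) : ℝ) * f (k + 1) (v + 1 + 1)) =
          (fun (k v : ℕ) => (v : ℝ) * f (k + 1) (v + 2) + f (k + 1) (v + 2)) := by
        funext k v; push_cast; ring
      rw [h1, h2]
    rw [e1, e2, e3, e4]
    simp only [map_add, map_smul, proj_proj, proj_compl_proj, add_zero]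
    module

/-- the perturbed (discounted) operator -/
noncomputable def Lop (P : L1 →L[ℝ] L1) (S : Set ℕ) : L1 →ₗ[ℝ] L1 :=
  (P : L1 →ₗ[ℝ] L1) ∘ₗ proj Sᶜ + (1 / 2 : ℝ) • ((P : L1 →ₗ[ℝ] L1) ∘ₗ proj S)

lemma Lop_apply (y : L1) : Lop P S y = P (proj Sᶜ y) + (1 / 2 : ℝ) • P (proj S y) := rfl

lemma Phi_half (n : ℕ) : Phi P S α x n (fun _ v => (1 / 2 : ℝ) ^ v) = (Lop P S ^ n) x := by
  induction n with
  | zero => simp [Phi_zero]
  | succ n ih =>
    have h1 : (fun (_ v : ℕ) => (1 / 2 : ℝ) ^ (v + 1)) =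
        (fun _ v => (1 / 2 : ℝ) * (1 / 2 : ℝ) ^ v) := by
      funext k v; rw [pow_succ]; ring
    rw [Phi_succ, h1, Phi_smul, ih, pow_succ', Module.End.mul_apply, Lop_apply]
    simp only [map_smul]
    module

lemma one_mono {y z : L1} (h : Pos (z - y)) : one y ≤ one z := by
  have := one_nonneg h
  rw [map_sub] at this
  linarith

lemma Phi_super (hP : Markov P) (hα : 0 ≤ α) (hL : ∀ j ∈ S, α ≤ (P (e j)) j) (hx : Pos x)
    {f : ℕ → ℕ → ℝ}
    (hf : ∀ k v, α * f (k + 1) (v + 1) + (1 - α) * f k (v + 1) ≤ f k v) (n : ℕ) :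
    one (Phi P S α x n f) ≤ f 0 0 * one x := by
  induction n with
  | zero => rw [Phi_zero, map_smul, smul_eq_mul]
  | succ n ih =>
    refine le_trans ?_ ih
    rw [Phi_succ]
    simp only [map_add, map_sub, map_smul, hP.one_map, smul_eq_mul]
    have h1 : one (proj S (Phi P S α x n
          (fun k v => α * f (k + 1) (v + 1) + (1 - α) * f k (v + 1)))) =
        α * one (proj S (Phi P S α x n (fun k v => f (k + 1) (v + 1)))) +
        (1 - α) * one (proj S (Phi P S α x n (fun k v => f k (v + 1)))) := by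
      rw [Phi_add, Phi_smul, Phi_smul]
      simp only [map_add, map_smul, smul_eq_mul]
    have h2 : one (proj S (Phi P S α x n
          (fun k v => α * f (k + 1) (v + 1) + (1 - α) * f k (v + 1)))) ≤
        one (proj S (Phi P S α x n f)) := by
      apply one_mono
      rw [← map_sub]
      exact proj_pos (Phi_mono hP hα hL hx n hf)
    have h3 : one (Phi P S α x n f) =
        one (proj S (Phi P S α x n f)) + one (proj Sᶜ (Phi P S α x n f)) := by
      rw [← map_add, proj_add_compl]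
    rw [h3]
    linarith

end

end Pool.Agent.H.MP_725863_an
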