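import Pool.Agent.H.MP_725863_an.Smooth

set_option autoImplicit false

namespace Pool.Agent.H.MP_725863_an

open scoped BigOperators

/-- the supermartingale weight -/
noncomputable def phi (K : ℕ) (α : ℝ) (k v : ℕ) : ℝ :=
  (2 / α) * (1 / (2 * K) + 1 / K ^ 2 +
    (K / 2) * (((k : ℝ) - α * v) ^ 2 / ((v : ℝ) + K ^ 2) ^ 2 + 1 / ((v : ℝ) + K ^ 2)))

lemma phi_nonneg {K : ℕ} {α : ℝ} (hα : 0 < α) (k v : ℕ) : 0 ≤ phi K α k v := by
  unfold phi
  positivity

lemma phi_zero {K : ℕ} (hK : 1 ≤ K) {α : ℝ} (hα : 0 < α) : phi K α 0 0 ≤ 4 / (α * K) := by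
  unfold phi
  have hK' : (1 : ℝ) ≤ K := by exact_mod_cast hK
  have h1 : (1 : ℝ) / K ^ 2 ≤ 1 / K := by
    apply one_div_le_one_div_of_le (by linarith)
    nlinarith
  have h2 : (2 / α) * (1 / (2 * K) + 1 / K ^ 2 +
    (K / 2) * ((((0 : ℕ) : ℝ) - α * ((0 : ℕ) : ℝ)) ^ 2 / (((0 : ℕ) : ℝ) + K ^ 2) ^ 2
      + 1 / (((0 : ℕ) : ℝ) + K ^ 2))) = (2 / α) * (1 / K + 1 / K ^ 2) := by
    have : (K : ℝ) ≠ 0 := by linarith
    push_cast
    field_simp
    ring
  rw [h2]
  have h3 : 4 / (α * K) = (2 / α) * (1 / K + 1 / K) := by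
    have : (K : ℝ) ≠ 0 := by linarith
    field_simp
    ring
  rw [h3]
  have : 0 < 2 / α := by positivity
  nlinarith

lemma phi_super {K : ℕ} (hK : 1 ≤ K) {α : ℝ} (hα : 0 < α) (hα1 : α ≤ 1) (k v : ℕ) :
    α * phi K α (k + 1) (v + 1) + (1 - α) * phi K α k (v + 1) ≤ phi K α k v := by
  have hK' : (1 : ℝ) ≤ K := by exact_mod_cast hK
  set w : ℝ := (v : ℝ) + K ^ 2 with hw
  have hw1 : 1 ≤ w := by
    have : (0 : ℝ) ≤ v := Nat.cast_nonneg v
    nlinarith
  set M : ℝ := (k : ℝ) - α * v with hM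
  have e1 : phi K α (k + 1) (v + 1) = (2 / α) * (1 / (2 * K) + 1 / K ^ 2 +
      (K / 2) * ((M + (1 - α)) ^ 2 / (w + 1) ^ 2 + 1 / (w + 1))) := by
    unfold phi
    rw [hM, hw]
    push_cast
    congr 3
    congr 2 <;> ring
  have e2 : phi K α k (v + 1) = (2 / α) * (1 / (2 * K) + 1 / K ^ 2 +
      (K / 2) * ((M - α) ^ 2 / (w + 1) ^ 2 + 1 / (w + 1))) := by
    unfold phi
    rw [hM, hw]
    push_cast
    congr 3
    congr 2 <;> ring
  have e3 : phi K α k v = (2 / α) * (1 / (2 * K) + 1 / K ^ 2 +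
      (K / 2) * (M ^ 2 / w ^ 2 + 1 / w)) := rfl
  rw [e1, e2, e3]
  have key : (M ^ 2 + α * (1 - α)) / (w + 1) ^ 2 + 1 / (w + 1) ≤ M ^ 2 / w ^ 2 + 1 / w := by
    have a1 : M ^ 2 / (w + 1) ^ 2 ≤ M ^ 2 / w ^ 2 := by
      apply div_le_div_of_nonneg_left (sq_nonneg _) (by positivity)
      nlinarith
    have a2 : α * (1 - α) / (w + 1) ^ 2 ≤ 1 / (w * (w + 1)) := by
      rw [div_le_div_iff₀ (by positivity) (by positivity)]
      have : α * (1 - α) ≤ 1 := by nlinarith
      have h0 : 0 ≤ α * (1 - α) := mul_nonneg hα.le (by linarith)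
      nlinarith [mul_nonneg h0 (by linarith : 0 ≤ w), mul_pos (by linarith : 0 < w) (by linarith : 0 < w + 1)]
    have a3 : 1 / (w * (w + 1)) = 1 / w - 1 / (w + 1) := by
      have : w ≠ 0 := by linarith
      have : w + 1 ≠ 0 := by linarith
      field_simp
      ring
    rw [add_div]
    linarith
  have hident : α * ((2 / α) * (1 / (2 * K) + 1 / K ^ 2 +
      (K / 2) * ((M + (1 - α)) ^ 2 / (w + 1) ^ 2 + 1 / (w + 1)))) +
      (1 - α) * ((2 / α) * (1 / (2 * K) + 1 / K ^ 2 +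
      (K / 2) * ((M - α) ^ 2 / (w + 1) ^ 2 + 1 / (w + 1)))) =
      (2 / α) * (1 / (2 * K) + 1 / K ^ 2 +
      (K / 2) * ((M ^ 2 + α * (1 - α)) / (w + 1) ^ 2 + 1 / (w + 1))) := by
    have : (w + 1) ≠ 0 := by linarith
    have : (K : ℝ) ≠ 0 := by linarith
    field_simp
    ring
  rw [hident]
  have : (0 : ℝ) ≤ K / 2 := by linarith
  gcongr

lemma phi_bound {K : ℕ} (hK : 1 ≤ K) {α : ℝ} (hα : 0 < α) (k v : ℕ) :
    1 - α * v / (k + 1) ≤ phi K α k v + 2 ^ (K ^ 2) * (1 / 2 : ℝ) ^ v := by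
  have hK' : (1 : ℝ) ≤ K := by exact_mod_cast hK
  have hphi := phi_nonneg (K := K) hα k v
  have hv0 : (0 : ℝ) ≤ v := Nat.cast_nonneg v
  have hk0 : (0 : ℝ) ≤ k := Nat.cast_nonneg k
  rcases le_total v (K ^ 2) with hv | hv
  · have h1 : (1 : ℝ) ≤ 2 ^ (K ^ 2) * (1 / 2 : ℝ) ^ v := by
      rw [one_div, inv_pow, ← div_eq_mul_inv, one_le_div (by positivity)]
      exact pow_le_pow_right₀ (by norm_num) hv
    have h2 : 0 ≤ α * v / (k + 1) := by positivity
    linarith
  · have h1 : (0 : ℝ) ≤ 2 ^ (K ^ 2) * (1 / 2 : ℝ) ^ v := by positivity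
    have hvK : (K : ℝ) ^ 2 ≤ v := by exact_mod_cast hv
    set w : ℝ := (v : ℝ) + K ^ 2 with hw
    have hw1 : 1 ≤ w := by nlinarith
    set M : ℝ := (k : ℝ) - α * v with hM
    have e0 : 1 - α * v / (k + 1) = (M + 1) / (k + 1) := by
      field_simp
      rw [hM]; ring
    have e3 : phi K α k v = (2 / α) * (1 / (2 * K) + 1 / K ^ 2 +
      (K / 2) * (M ^ 2 / w ^ 2 + 1 / w)) := rfl
    rw [e0]
    rcases le_total (M + 1) 0 with hM1 | hM1
    · have : (M + 1) / (k + 1) ≤ 0 := div_nonpos_of_nonpos_of_nonneg hM1 (by linarith)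
      linarith
    · have hden : α * w / 2 ≤ (k : ℝ) + 1 := by
        have : (k : ℝ) + 1 ≥ α * v := by linarith
        have : w ≤ 2 * v := by linarith
        nlinarith
      have hpos : 0 < α * w / 2 := by positivity
      have s1 : (M + 1) / (k + 1) ≤ (M + 1) / (α * w / 2) :=
        div_le_div_of_nonneg_left hM1 hpos hden
      have s2 : (M + 1) / (α * w / 2) = (2 / α) * (M / w + 1 / w) := by
        field_simp
      have s3 : M / w ≤ 1 / (2 * K) + (K / 2) * (M ^ 2 / w ^ 2) := by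
        have : 0 ≤ (1 / (2 * K) : ℝ) * (K * (M / w) - 1) ^ 2 := by positivity
        have e : (1 / (2 * K) : ℝ) * (K * (M / w) - 1) ^ 2 =
            1 / (2 * K) + (K / 2) * (M ^ 2 / w ^ 2) - M / w := by
          have : (K : ℝ) ≠ 0 := by linarith
          field_simp
          ring
        linarith
      have s4 : 1 / w ≤ 1 / (K : ℝ) ^ 2 := by
        apply one_div_le_one_div_of_le (by positivity)
        linarith
      have s5 : 0 ≤ (K / 2 : ℝ) * (1 / w) := by positivity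
      have s6 : M / w + 1 / w ≤ 1 / (2 * K) + 1 / K ^ 2 +
          (K / 2) * (M ^ 2 / w ^ 2 + 1 / w) := by
        rw [mul_add]; linarith
      have s7 : (2 / α) * (M / w + 1 / w) ≤ phi K α k v := by
        rw [e3]
        exact mul_le_mul_of_nonneg_left s6 (by positivity)
      linarith

/-- The smoothing estimate. -/
theorem smoothing {P : L1 →L[ℝ] L1} {S : Set ℕ} {α : ℝ} {x : L1} (hP : Markov P)
    (hα : 0 < α) (hα1 : α ≤ 1) (hL : ∀ j ∈ S, α ≤ (P (e j)) j) (hx : Pos x)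
    {K : ℕ} (hK : 1 ≤ K) (n : ℕ) :
    ‖(P ^ n) x - (P ^ (n + 1)) x‖ ≤
      8 / (α * K) * ‖x‖ + 2 ^ (K ^ 2 + 1) * one ((Lop P S ^ n) x) := by
  set g : ℕ → ℕ → ℝ := fun k v => phi K α k v + 2 ^ (K ^ 2) * (1 / 2 : ℝ) ^ v with hg
  have hg0 : ∀ k v, 0 ≤ g k v := fun k v =>
    add_nonneg (phi_nonneg hα k v) (by positivity)
  -- one of the iterates
  have hone : ∀ m : ℕ, one ((P ^ m) x) = one x := by
    intro m
    induction m with
    | zero => simp
    | succ m ih => rw [pow_succ', mul_apply_eq_comp, hP.one_map, ih]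
  have hy : Pos (Phi P S α x n g) := Phi_pos hP hα.le hL hx n g hg0
  -- comparison
  have hcmp : Pos (Phi P S α x n g - ((P ^ n) x - (P ^ (n + 1)) x)) := by
    -- P^{n+1} x ≥ Phi n (α v/(k+1))
    have hid := Phi_identity (P := P) (S := S) (α := α) (x := x) n
      (fun k _ => if k = 0 then (0 : ℝ) else 1 / (k : ℝ))
    have hf1 : Phi P S α x (n + 1)
        (fun k _ => (k : ℝ) * (if k = 0 then (0 : ℝ) else 1 / (k : ℝ))) =
        Phi P S α x (n + 1) (fun k _ => if k = 0 then (0 : ℝ) else 1) := by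
      congr 1
      funext k v
      by_cases hk : k = 0
      · simp [hk]
      · have : (k : ℝ) ≠ 0 := by exact_mod_cast hk
        simp [hk]
    rw [hf1] at hid
    have h1 : Pos ((P ^ (n + 1)) x -
        Phi P S α x (n + 1) (fun k _ => if k = 0 then (0 : ℝ) else 1)) := by
      rw [← Phi_one (P := P) (S := S) (α := α) (x := x) (n + 1)]
      apply Phi_mono hP hα.le hL hx
      intro k v
      split_ifs <;> norm_num
    have h2 : Pos (Phi P S α x (n + 1) (fun k _ => if k = 0 then (0 : ℝ) else 1) -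
        α • Phi P S α x n (fun k v => (v : ℝ) * (1 / ((k : ℝ) + 1)))) := by
      rw [hid]
      have hsimp : (fun (k v : ℕ) => (v : ℝ) * (if k + 1 = 0 then (0 : ℝ) else
          1 / ((k + 1 : ℕ) : ℝ))) = (fun (k v : ℕ) => (v : ℝ) * (1 / ((k : ℝ) + 1))) := by
        funext k v
        simp
      have h3 : Pos (α • proj S (Phi P S α x n (fun k _ => if k + 1 = 0 then (0 : ℝ) else
          1 / ((k + 1 : ℕ) : ℝ)))) := by
        apply pos_smul hα.le
        apply proj_pos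
        apply Phi_pos hP hα.le hL hx
        intro k v
        rw [if_neg (Nat.succ_ne_zero k)]
        positivity
      rw [hsimp]
      have e : α • (Phi P S α x n (fun k v => (v : ℝ) * (1 / ((k : ℝ) + 1))) +
          proj S (Phi P S α x n (fun k _ => if k + 1 = 0 then (0 : ℝ) else
          1 / ((k + 1 : ℕ) : ℝ)))) -
          α • Phi P S α x n (fun k v => (v : ℝ) * (1 / ((k : ℝ) + 1))) =
          α • proj S (Phi P S α x n (fun k _ => if k + 1 = 0 then (0 : ℝ) else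
          1 / ((k + 1 : ℕ) : ℝ))) := by module
      rw [e]
      exact h3
    have h4 : Pos (Phi P S α x n g -
        ((P ^ n) x - α • Phi P S α x n (fun k v => (v : ℝ) * (1 / ((k : ℝ) + 1))))) := by
      rw [← Phi_one (P := P) (S := S) (α := α) (x := x) n, ← Phi_smul, ← Phi_sub]
      apply Phi_mono hP hα.le hL hx
      intro k v
      have := phi_bound (K := K) hK hα k v
      have e : (1 : ℝ) - α * ((v : ℝ) * (1 / ((k : ℝ) + 1))) = 1 - α * v / (k + 1) := by
        ring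
      rw [e]
      exact this
    have e : Phi P S α x n g - ((P ^ n) x - (P ^ (n + 1)) x) =
        (Phi P S α x n g -
        ((P ^ n) x - α • Phi P S α x n (fun k v => (v : ℝ) * (1 / ((k : ℝ) + 1))))) +
        (Phi P S α x (n + 1) (fun k _ => if k = 0 then (0 : ℝ) else 1) -
        α • Phi P S α x n (fun k v => (v : ℝ) * (1 / ((k : ℝ) + 1)))) +
        ((P ^ (n + 1)) x -
        Phi P S α x (n + 1) (fun k _ => if k = 0 then (0 : ℝ) else 1)) := by
      abel
    rw [e]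
    exact pos_add (pos_add h4 h2) h1
  have hmain := norm_sub_le_of_le (a := (P ^ n) x) (b := (P ^ (n + 1)) x)
    (y := Phi P S α x n g) (by rw [hone, hone]) hy (by
      intro m
      have := hcmp m
      rw [lp.coeFn_sub, Pi.sub_apply, lp.coeFn_sub, Pi.sub_apply] at this
      linarith)
  have hsplit : one (Phi P S α x n g) =
      one (Phi P S α x n (phi K α)) + 2 ^ (K ^ 2) * one ((Lop P S ^ n) x) := by
    rw [hg, Phi_add, Phi_smul, Phi_half, map_add, map_smul, smul_eq_mul]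
  have hsup := Phi_super hP hα.le hL hx (f := phi K α) (phi_super hK hα hα1) n
  have hz := phi_zero hK hα
  have hx1 : one x = ‖x‖ := one_eq_norm hx
  have hxn : 0 ≤ ‖x‖ := norm_nonneg _
  have h5 : phi K α 0 0 * one x ≤ 4 / (α * K) * ‖x‖ := by
    rw [hx1]; exact mul_le_mul_of_nonneg_right hz hxn
  calc ‖(P ^ n) x - (P ^ (n + 1)) x‖ ≤ 2 * one (Phi P S α x n g) := hmain
    _ ≤ 2 * (4 / (α * K) * ‖x‖ + 2 ^ (K ^ 2) * one ((Lop P S ^ n) x)) := by
        rw [hsplit]; linarith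
    _ = 8 / (α * K) * ‖x‖ + 2 ^ (K ^ 2 + 1) * one ((Lop P S ^ n) x) := by
        rw [pow_succ]; ring

end Pool.Agent.H.MP_725863_an
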